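import Pool.Agent.QC.S5.PairM

/-!
# MP_7c50a9_lc, section 5.1: `pairA` and `pairB` of `Ev/Iface.lean`
-/

namespace Pool.Agent.QC

open Set Metric Filter Topology Complex ComplexConjugate MvPolynomial S5
open scoped ContDiff

variable {n l : ℕ}

/-- Case A: `(H⁻¹)_nn > 0`. -/
theorem pairA' {q : RTup n l} (h1 : T1 (tC q)) {tv : ℝ} {v : Fin (n + 1) → ℝ}
    (hv : xC v ∈ SingF (f0 (tC (addT q tv)))) (h3 : N3at (tC (addT q tv)))
    (hA : 0 < ((HR (addT q tv) v)⁻¹ : Matrix _ _ ℝ) (Fin.last n) (Fin.last n)) :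
    ∃ r₁ > 0, ∀ r > 0, ∃ κ > 0, ∀ t : ℂ, t ≠ tv → ‖t - tv‖ < κ → 0 ≤ t.im →
      ∃ w1 w2, PairAt (tC q) t (xC v) r₁ r w1 w2 ∧
        0 < (w1 (Fin.last n) - v (Fin.last n)).im - (w1 (Fin.last n) - v (Fin.last n)).re ∧
        (w2 (Fin.last n) - v (Fin.last n)).im - (w2 (Fin.last n) - v (Fin.last n)).re < 0 ∧
        (t.im = 0 → t.re < tv → ∃ x1 x2 : Fin (n + 1) → ℝ, w1 = xC x1 ∧ w2 = xC x2 ∧
          x1 (Fin.last n) < v (Fin.last n) ∧ v (Fin.last n) < x2 (Fin.last n)) ∧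
        (t.im = 0 → tv < t.re → 0 < (w1 (Fin.last n)).im ∧
          w2 (Fin.last n) = (starRingEnd ℂ) (w1 (Fin.last n))) := by
  rw [Lab.tC_addT] at hv h3
  set d := ((HR (addT q tv) v)⁻¹ : Matrix _ _ ℝ) (Fin.last n) (Fin.last n) with hd
  have hkap := isKap_gq hv hd.symm hA.ne'
  obtain ⟨r₁, hr₁, s, hs, W, hW⟩ := pair_core q h1 hv h3 (κ := d⁻¹) (ε := 1) (Or.inl rfl)
    (inv_pos.mpr hA) (by simpa using hkap)
  refine ⟨r₁, hr₁, fun r hr => ?_⟩
  obtain ⟨κ, hκ, hpair, hconj, hpar⟩ := hW r hr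
  refine ⟨κ, hκ, fun t htne ht htim => ?_⟩
  obtain ⟨σ, hσ, hre, him⟩ := exists_sqrt_q4 ((tv : ℂ) - t) (by simpa using htim)
  have hσ' : σ ^ 2 = ((1 : ℝ) : ℂ) * (tv - t) := by rw [hσ]; simp
  have hnσ : ‖σ‖ ^ 2 < κ := by
    rw [← norm_pow, hσ, norm_sub_rev]
    exact ht
  have hnσ' : ‖-σ‖ ^ 2 < κ := by rwa [norm_neg]
  have hσ0 : σ ≠ 0 := by
    rintro rfl
    rw [zero_pow two_ne_zero] at hσ
    exact htne (sub_eq_zero.mp hσ.symm).symm
  -- the values
  set Y1 : ℂ := (s : ℂ) * (W (-σ) (Fin.last n) - v (Fin.last n)) with hY1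
  set Y2 : ℂ := (s : ℂ) * (W σ (Fin.last n) - v (Fin.last n)) with hY2
  have hp1 : ‖-σ - Y1‖ ≤ ‖Y1‖ / 2 := by
    refine (hpar (-σ) hnσ').trans_eq ?_
    rw [hY1, norm_mul, Complex.norm_real, Real.norm_of_nonneg hs.le]
    ring
  have hp2 : ‖σ - Y2‖ ≤ ‖Y2‖ / 2 := by
    refine (hpar σ hnσ).trans_eq ?_
    rw [hY2, norm_mul, Complex.norm_real, Real.norm_of_nonneg hs.le]
    ring
  have hr1 : Y1.re = s * (W (-σ) (Fin.last n) - v (Fin.last n)).re := by
    rw [hY1, Complex.re_ofReal_mul]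
  have hi1 : Y1.im = s * (W (-σ) (Fin.last n) - v (Fin.last n)).im := by
    rw [hY1, Complex.im_ofReal_mul]
  have hr2 : Y2.re = s * (W σ (Fin.last n) - v (Fin.last n)).re := by
    rw [hY2, Complex.re_ofReal_mul]
  have hi2 : Y2.im = s * (W σ (Fin.last n) - v (Fin.last n)).im := by
    rw [hY2, Complex.im_ofReal_mul]
  refine ⟨W (-σ), W σ, hpair t htne ht σ hσ', ?_, ?_, ?_, ?_⟩
  · have h4 := sector (σ := σ) (Y := -Y1) hσ0 hre him (by
      rw [norm_neg, sub_neg_eq_add, ← norm_neg, neg_add']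
      exact hp1)
    rw [Complex.neg_im, Complex.neg_re, hr1, hi1] at h4
    have h5 : 0 < s * ((W (-σ) (Fin.last n) - v (Fin.last n)).im -
        (W (-σ) (Fin.last n) - v (Fin.last n)).re) := by linarith
    exact (mul_pos_iff_of_pos_left hs).mp h5
  · have h4 := sector (σ := σ) (Y := Y2) hσ0 hre him hp2
    rw [hr2, hi2] at h4
    have h5 : s * ((W σ (Fin.last n) - v (Fin.last n)).im -
        (W σ (Fin.last n) - v (Fin.last n)).re) < 0 := by linarith
    by_contra hcon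
    push Not at hcon
    exact absurd (mul_nonneg hs.le hcon) (not_le.mpr h5)
  · intro him0 hret
    -- `σ` is real
    have hσre : σ.im = 0 ∧ 0 < σ.re := by
      have e1 : (σ ^ 2).im = 0 := by rw [hσ]; simp [him0]
      have e2 : (σ ^ 2).re = tv - t.re := by rw [hσ]; simp
      rw [pow_two, Complex.mul_im] at e1
      rw [pow_two, Complex.mul_re] at e2
      have e3 : σ.re * σ.im = 0 := by linarith
      rcases mul_eq_zero.mp e3 with h | h
      · rw [h] at e2
        nlinarith [sq_nonneg σ.im]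
      · refine ⟨h, lt_of_le_of_ne hre ?_⟩
        intro h0
        exact hσ0 (Complex.ext h0.symm h)
    have hcσ : conj σ = σ := Complex.conj_eq_iff_im.mpr hσre.1
    have hc2 : W σ = fun k => conj (W σ k) := by
      have := hconj σ hnσ
      rwa [hcσ] at this
    have hc1 : W (-σ) = fun k => conj (W (-σ) k) := by
      have := hconj (-σ) hnσ'
      rwa [map_neg, hcσ] at this
    obtain ⟨x1, hx1⟩ := real_pt hc1
    obtain ⟨x2, hx2⟩ := real_pt hc2
    refine ⟨x1, x2, hx1, hx2, ?_, ?_⟩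
    · have h4 := sector (σ := σ) (Y := -Y1) hσ0 hre him (by
        rw [norm_neg, sub_neg_eq_add, ← norm_neg, neg_add']
        exact hp1)
      rw [Complex.neg_im, Complex.neg_re, hr1, hi1, hx1] at h4
      have e1 : (xC x1 (Fin.last n) - (v (Fin.last n) : ℂ)).im = 0 := by simp [xC]
      have e2 : (xC x1 (Fin.last n) - (v (Fin.last n) : ℂ)).re =
          x1 (Fin.last n) - v (Fin.last n) := by simp [xC]
      rw [e1, e2] at h4
      nlinarith
    · have h4 := sector (σ := σ) (Y := Y2) hσ0 hre him hp2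
      rw [hr2, hi2, hx2] at h4
      have e1 : (xC x2 (Fin.last n) - (v (Fin.last n) : ℂ)).im = 0 := by simp [xC]
      have e2 : (xC x2 (Fin.last n) - (v (Fin.last n) : ℂ)).re =
          x2 (Fin.last n) - v (Fin.last n) := by simp [xC]
      rw [e1, e2] at h4
      nlinarith
  · intro him0 hret
    -- `σ` is imaginary
    have hσim : σ.re = 0 ∧ σ.im < 0 := by
      have e1 : (σ ^ 2).im = 0 := by rw [hσ]; simp [him0]
      have e2 : (σ ^ 2).re = tv - t.re := by rw [hσ]; simp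
      rw [pow_two, Complex.mul_im] at e1
      rw [pow_two, Complex.mul_re] at e2
      have e3 : σ.re * σ.im = 0 := by linarith
      rcases mul_eq_zero.mp e3 with h | h
      · refine ⟨h, lt_of_le_of_ne him ?_⟩
        intro h0
        exact hσ0 (Complex.ext h h0)
      · rw [h] at e2
        nlinarith [sq_nonneg σ.re]
    have hcσ : conj (-σ) = σ := by
      refine Complex.ext ?_ ?_
      · simp [hσim.1]
      · simp
    constructor
    · -- `Y1` is close to `-σ`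
      have h5 : 0 < Y1.im := by
        by_contra hcon
        push Not at hcon
        have h6 : ‖-σ - Y1‖ ^ 2 ≤ (‖Y1‖ / 2) ^ 2 := by gcongr
        have h7 : (‖Y1‖ / 2) ^ 2 = ‖Y1‖ ^ 2 / 4 := by ring
        rw [h7, Complex.sq_norm, Complex.sq_norm, Complex.normSq_apply, Complex.normSq_apply,
          Complex.sub_re, Complex.sub_im, Complex.neg_re, Complex.neg_im, hσim.1] at h6
        nlinarith [sq_nonneg Y1.re, sq_nonneg Y1.im, mul_nonneg (neg_nonneg.mpr hσim.2.le)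
          (neg_nonneg.mpr hcon), mul_pos (neg_pos.mpr hσim.2) (neg_pos.mpr hσim.2)]
      rw [hi1] at h5
      have h6 := (mul_pos_iff_of_pos_left hs).mp h5
      simpa using h6
    · have := hconj (-σ) hnσ'
      rw [hcσ] at this
      exact congrFun this (Fin.last n)

/-- Case B (only needed for negative definite `H`): real pair after the event. -/
theorem pairB' {q : RTup n l} (h1 : T1 (tC q)) {tv : ℝ} {v : Fin (n + 1) → ℝ}
    (hv : xC v ∈ SingF (f0 (tC (addT q tv)))) (h3 : N3at (tC (addT q tv)))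
    (hB : NegDef (HR (addT q tv) v)) :
    ∃ r₁ > 0, ∀ r > 0, ∃ κ > 0, (∀ t : ℂ, t ≠ tv → ‖t - tv‖ < κ → 0 ≤ t.im →
      ∃ w1 w2, PairAt (tC q) t (xC v) r₁ r w1 w2) ∧
      ∀ t : ℝ, tv < t → t < tv + κ → ∃ x1 x2 : Fin (n + 1) → ℝ,
        PairAt (tC q) t (xC v) r₁ r (xC x1) (xC x2) ∧
          x2 (Fin.last n) < v (Fin.last n) ∧ v (Fin.last n) < x1 (Fin.last n) := by
  rw [Lab.tC_addT] at hv h3
  have hneg := inv_neg_of_negDef hB
  set d := ((HR (addT q tv) v)⁻¹ : Matrix _ _ ℝ) (Fin.last n) (Fin.last n) with hd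
  have hkap := isKap_gq hv hd.symm hneg.ne
  obtain ⟨r₁, hr₁, s, hs, W, hW⟩ := pair_core q h1 hv h3 (κ := (-d)⁻¹) (ε := -1) (Or.inr rfl)
    (inv_pos.mpr (by linarith)) (by
      have e : (((-1 : ℝ) : ℂ)) * (((-d)⁻¹ : ℝ) : ℂ) = ((d⁻¹ : ℝ) : ℂ) := by
        rw [inv_neg]
        push_cast
        ring
      rw [e]
      exact hkap)
  refine ⟨r₁, hr₁, fun r hr => ?_⟩
  obtain ⟨κ, hκ, hpair, hconj, hpar⟩ := hW r hr
  refine ⟨κ, hκ, fun t htne ht _ => ?_, fun t ht ht' => ?_⟩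
  · obtain ⟨σ, hσ⟩ := IsAlgClosed.exists_pow_nat_eq (((-1 : ℝ) : ℂ) * ((tv : ℂ) - t)) (n := 2)
      two_pos
    exact ⟨_, _, hpair t htne ht σ hσ⟩
  · have hpos : 0 < t - tv := by linarith
    set a : ℝ := Real.sqrt (t - tv) with ha
    have ha0 : 0 < a := Real.sqrt_pos.mpr hpos
    have ha2 : a ^ 2 = t - tv := Real.sq_sqrt hpos.le
    have hσ : ((-a : ℝ) : ℂ) ^ 2 = ((-1 : ℝ) : ℂ) * ((tv : ℂ) - (t : ℂ)) := by
      have : ((-a : ℝ) : ℂ) ^ 2 = ((a ^ 2 : ℝ) : ℂ) := by push_cast; ring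
      rw [this, ha2]
      push_cast
      ring
    have hnσ : ‖((-a : ℝ) : ℂ)‖ ^ 2 < κ := by
      rw [Complex.norm_real, Real.norm_eq_abs, sq_abs, neg_sq, ha2]
      linarith
    have hnσ' : ‖((a : ℝ) : ℂ)‖ ^ 2 < κ := by
      rw [Complex.norm_real, Real.norm_eq_abs, sq_abs, ha2]
      linarith
    have hP := hpair (t : ℂ) (by
        intro h
        rw [Complex.ofReal_inj] at h
        linarith) (by
        rw [← Complex.ofReal_sub, Complex.norm_real, Real.norm_of_nonneg hpos.le]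
        linarith) _ hσ
    have hneg' : -((-a : ℝ) : ℂ) = ((a : ℝ) : ℂ) := by push_cast; ring
    rw [hneg'] at hP
    obtain ⟨x1, hx1⟩ := real_pt (W := W (a : ℂ)) (by
      have := hconj _ hnσ'
      rwa [Complex.conj_ofReal] at this)
    obtain ⟨x2, hx2⟩ := real_pt (W := W ((-a : ℝ) : ℂ)) (by
      have := hconj _ hnσ
      rwa [Complex.conj_ofReal] at this)
    have key : ∀ (b : ℝ) (x : Fin (n + 1) → ℝ), W (b : ℂ) = xC x → ‖(b : ℂ)‖ ^ 2 < κ →
        |b - s * (x (Fin.last n) - v (Fin.last n))| ≤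
          |s * (x (Fin.last n) - v (Fin.last n))| / 2 := by
      intro b x hx hb
      have h4 := hpar _ hb
      rw [hx] at h4
      have e1 : (b : ℂ) - (s : ℂ) * (xC x (Fin.last n) - (v (Fin.last n) : ℂ)) =
          ((b - s * (x (Fin.last n) - v (Fin.last n)) : ℝ) : ℂ) := by
        simp [xC]
      have e2 : xC x (Fin.last n) - (v (Fin.last n) : ℂ) =
          ((x (Fin.last n) - v (Fin.last n) : ℝ) : ℂ) := by
        simp [xC]
      rw [e1, e2, Complex.norm_real, Complex.norm_real, Real.norm_eq_abs, Real.norm_eq_abs] at h4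
      rw [abs_mul, abs_of_pos hs]
      linarith
    refine ⟨x1, x2, by rw [← hx1, ← hx2]; exact hP, ?_, ?_⟩
    · have h4 := key (-a) x2 hx2 hnσ
      by_contra hcon
      push Not at hcon
      have h5 : 0 ≤ s * (x2 (Fin.last n) - v (Fin.last n)) := mul_nonneg hs.le (by linarith)
      rw [abs_of_nonneg h5] at h4
      have := (abs_le.mp h4).1
      linarith
    · have h4 := key a x1 hx1 hnσ'
      by_contra hcon
      push Not at hcon
      have h5 : s * (x1 (Fin.last n) - v (Fin.last n)) ≤ 0 :=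
        mul_nonpos_of_nonneg_of_nonpos hs.le (by linarith)
      rw [abs_of_nonpos h5] at h4
      have := (abs_le.mp h4).2
      linarith

end Pool.Agent.QC
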