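import Pool.Agent.QC.S5.PairL

/-!
# MP_7c50a9_lc, section 5.1: the pair of critical points near an event (`eta = 0`)
-/

namespace Pool.Agent.QC.S5

open Set Metric Filter Topology Complex ComplexConjugate MvPolynomial
open scoped ContDiff

variable {n l : ℕ}

theorem T1_addT {q : Tup n l} (h : T1 q) (t : ℂ) : T1 (addT q t) := by
  have e1 : ∀ m ξ, qform (addT q t m) ξ = qform (q m) ξ := by
    intro m ξ
    by_cases hm : m = 0
    · subst hm; simp [addT, qform]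
    · rw [addT_ne_zero q t hm]
  have e2 : ∀ m k ξ, qfgrad (addT q t m) k ξ = qfgrad (q m) k ξ := by
    intro m k ξ
    by_cases hm : m = 0
    · subst hm; simp [addT, qfgrad]
    · rw [addT_ne_zero q t hm]
  intro ξ hξ hl c κ h1 h2
  simp only [e1, e2] at h1 h2
  exact h ξ hξ hl c κ h1 h2

theorem continuous_addTC (q : Tup n l) : Continuous fun t : ℂ => addT q t := by
  refine continuous_pi fun m => ?_
  by_cases hm : m = 0
  · subst hm
    simp only [addT, if_true]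
    fun_prop
  · simp only [addT_ne_zero q _ hm]
    exact continuous_const

/-- Isolation of a critical value. -/
theorem exists_isol {q : Tup n l} (hT : T1 q) {v : Fin (n + 1) → ℂ}
    (hne : ∀ w ∈ CritF (f0 q), w ≠ v → w (Fin.last n) ≠ v (Fin.last n))
    {U : Set (Fin (n + 1) → ℂ)} (hU : IsOpen U)
    (hUv : ∀ x ∈ U, x ∈ CritF (f0 q) → x = v) (hvU : v ∈ U) :
    ∃ r₁ > 0, ∀ x ∈ CritF (f0 q), ‖x (Fin.last n) - v (Fin.last n)‖ ≤ r₁ → x = v := by
  obtain ⟨C, hC⟩ := crit_bounded_at hT zero_lt_one (‖v (Fin.last n)‖ + 1) 0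
  have hC' := hC.self_of_nhds 0 le_rfl le_rfl
  rw [fpol_zero] at hC'
  have hcl : IsClosed (CritF (f0 q)) := by
    have := (isClosed_critF (n := n) (l := l) 1).preimage
      (f := fun x : Fin (n + 1) → ℂ => ((0 : ℝ), q, x)) (by fun_prop)
    have h2 : (fun x : Fin (n + 1) → ℂ => ((0 : ℝ), q, x)) ⁻¹'
        {r : ℝ × Tup n l × (Fin (n + 1) → ℂ) | r.2.2 ∈ CritF (fpol 1 r.1 r.2.1)} =
        CritF (f0 q) := by
      ext x
      show x ∈ CritF (fpol 1 0 q) ↔ _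
      rw [fpol_zero]
    rwa [h2] at this
  have hK : IsCompact ((CritF (f0 q) ∩ Uᶜ) ∩ Metric.closedBall (0 : Fin (n + 1) → ℂ) C) :=
    (isCompact_closedBall (0 : Fin (n + 1) → ℂ) C).inter_left (hcl.inter hU.isClosed_compl)
  have hK' := (hK.image (f := fun x : Fin (n + 1) → ℂ => x (Fin.last n))
    (by fun_prop)).isClosed
  have hv' : v (Fin.last n) ∈ ((fun x : Fin (n + 1) → ℂ => x (Fin.last n)) ''
      ((CritF (f0 q) ∩ Uᶜ) ∩ Metric.closedBall (0 : Fin (n + 1) → ℂ) C))ᶜ := by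
    rintro ⟨x, hx, hxz⟩
    by_cases hxv : x = v
    · exact hx.1.2 (hxv ▸ hvU)
    · exact hne x hx.1.1 hxv hxz
  obtain ⟨ε, hε, hb⟩ := Metric.nhds_basis_closedBall.mem_iff.1 (hK'.isOpen_compl.mem_nhds hv')
  refine ⟨min ε 1, lt_min hε one_pos, fun x hx hxr => ?_⟩
  by_cases hxU : x ∈ U
  · exact hUv x hxU hx
  · exfalso
    refine hb (show x (Fin.last n) ∈ closedBall (v (Fin.last n)) ε from ?_)
      ⟨x, ⟨⟨hx, hxU⟩, ?_⟩, rfl⟩
    · rw [mem_closedBall, dist_eq_norm]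
      exact hxr.trans (min_le_left _ _)
    · have h1 : ‖x (Fin.last n)‖ ≤ ‖v (Fin.last n)‖ + 1 := by
        have h2 := norm_sub_norm_le (x (Fin.last n)) (v (Fin.last n))
        have h3 := hxr.trans (min_le_right _ _)
        linarith
      simpa using hC' x hx h1

/-- **The pair, with the parameter `σ`.** -/
theorem pair_core (q : RTup n l) (h1 : T1 (tC q)) {tv : ℝ} {v : Fin (n + 1) → ℝ}
    (hs : xC v ∈ SingF (f0 (addT (tC q) (tv : ℂ)))) (h3 : N3at (addT (tC q) (tv : ℂ)))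
    {κ ε : ℝ} (hε : ε = 1 ∨ ε = -1) (hκ : 0 < κ)
    (hkap : IsKap (gq (tC q)) (uv v tv) ((ε : ℂ) * κ)) :
    ∃ r₁ > 0, ∃ s : ℝ, 0 < s ∧ ∃ W : ℂ → Fin (n + 1) → ℂ, ∀ r > 0, ∃ κ' > 0,
      (∀ t : ℂ, t ≠ tv → ‖t - tv‖ < κ' → ∀ σ : ℂ, σ ^ 2 = ε * (tv - t) →
        PairAt (tC q) t (xC v) r₁ r (W (-σ)) (W σ)) ∧
      (∀ σ : ℂ, ‖σ‖ ^ 2 < κ' → W (conj σ) = fun k => conj (W σ k)) ∧
      ∀ σ : ℂ, ‖σ‖ ^ 2 < κ' → ‖σ - (s : ℂ) * (W σ (Fin.last n) - v (Fin.last n))‖ ≤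
        s / 2 * ‖W σ (Fin.last n) - v (Fin.last n)‖ := by
  obtain ⟨-, hh, -, hcrit, -⟩ := h3 _ hs
  obtain ⟨U, hUo, hvU, ρ, hρ, s, hspos, W, hWc, hW0, hiff, hnd, hconj, hpar⟩ :=
    exists_local q hs hh hε hκ hkap
  have hUv : ∀ x ∈ U, x ∈ CritF (f0 (addT (tC q) (tv : ℂ))) → x = xC v := by
    intro x hxU hx
    obtain ⟨σ, hσ, rfl⟩ := (hiff tv (by simpa using hρ) x).mp ⟨hxU, hx⟩
    have : σ = 0 := by simpa using hσ
    rw [this, hW0]
  obtain ⟨r₁, hr₁, hisol⟩ := exists_isol (T1_addT h1 _) (v := xC v)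
    (fun w hw hwv => (hcrit w hw hwv).2) hUo hUv hvU
  refine ⟨r₁, hr₁, s, hspos, W, fun r hr => ?_⟩
  -- `W σ` is near
  obtain ⟨δ, hδ, hnear⟩ := Metric.continuousAt_iff.mp hWc r hr
  rw [hW0] at hnear
  -- semicontinuity
  have husc := crit_usc0 (T1_addT h1 (tv : ℂ)) (isCompact_closedBall (xC v (Fin.last n)) r₁) hUo
    (fun x hx hxS => by
      rw [mem_closedBall, dist_eq_norm] at hxS
      rw [hisol x hx hxS]
      exact hvU)
  have husc' := ((continuous_addTC (tC q)).tendsto (tv : ℂ)).eventually husc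
  obtain ⟨κ₁, hκ₁, hκ₁'⟩ := Metric.eventually_nhds_iff.mp husc'
  refine ⟨min ρ (min (δ ^ 2) κ₁), lt_min hρ (lt_min (by positivity) hκ₁), ?_, ?_, ?_⟩
  · intro t htne ht σ hσ
    have htρ : ‖t - tv‖ < ρ := ht.trans_le (min_le_left _ _)
    have htδ : ‖t - tv‖ < δ ^ 2 := ht.trans_le ((min_le_right _ _).trans (min_le_left _ _))
    have htκ : ‖t - tv‖ < κ₁ := ht.trans_le ((min_le_right _ _).trans (min_le_right _ _))
    have hnσ : ‖σ‖ ^ 2 = ‖t - tv‖ := by
      rw [← norm_pow, hσ, norm_mul, norm_sub_rev]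
      rcases hε with rfl | rfl <;> simp
    have hσ0 : σ ≠ 0 := by
      rintro rfl
      rw [norm_zero, zero_pow two_ne_zero] at hnσ
      exact htne (sub_eq_zero.mp (norm_eq_zero.mp hnσ.symm))
    have hσδ : ‖σ‖ < δ := by
      have : ‖σ‖ ^ 2 < δ ^ 2 := by rw [hnσ]; exact htδ
      exact lt_of_pow_lt_pow_left₀ 2 hδ.le this
    have hσ' : (-σ) ^ 2 = ε * (tv - t) := by rw [neg_sq, hσ]
    obtain ⟨hU2, hc2⟩ := (hiff t htρ (W σ)).mpr ⟨σ, hσ, rfl⟩
    obtain ⟨hU1, hc1⟩ := (hiff t htρ (W (-σ))).mpr ⟨-σ, hσ', rfl⟩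
    refine ⟨hc1, hc2, hnd t htρ htne _ hU1 hc1, hnd t htρ htne _ hU2 hc2, ?_, ?_, ?_, ?_⟩
    · intro h
      have h4 := hpar (-σ) σ (by rw [norm_neg, hnσ]; exact htρ) (by rw [hnσ]; exact htρ)
      rw [h, sub_self, norm_zero, mul_zero, mul_zero, sub_zero] at h4
      have h5 : -σ - σ = 0 := norm_eq_zero.mp (le_antisymm h4 (norm_nonneg _))
      apply hσ0
      have h6 : (2 : ℂ) * σ = 0 := by linear_combination -h5
      exact (mul_eq_zero.mp h6).resolve_left two_ne_zero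
    · exact hnear (by simpa using hσδ)
    · exact hnear (by simpa using hσδ)
    · intro x hx hxr
      have hxU : x ∈ U := hκ₁' (by rw [dist_eq_norm]; exact htκ) x hx (by
        rw [mem_closedBall, dist_eq_norm]
        exact hxr.le)
      obtain ⟨σ', hσ'', rfl⟩ := (hiff t htρ x).mp ⟨hxU, hx⟩
      have h4 : σ' ^ 2 = σ ^ 2 := by rw [hσ'', hσ]
      rcases sq_eq_sq_iff_eq_or_eq_neg.mp h4 with h5 | h5
      · right; rw [h5]
      · left; rw [h5]
  · intro σ hσ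
    exact hconj σ (hσ.trans_le (min_le_left _ _))
  · intro σ hσ
    have h4 := hpar σ 0 (hσ.trans_le (min_le_left _ _)) (by simpa using hρ)
    rw [hW0, sub_zero] at h4
    exact h4

/-- Square roots in the closed fourth quadrant. -/
theorem exists_sqrt_q4 (z : ℂ) (hz : z.im ≤ 0) : ∃ σ : ℂ, σ ^ 2 = z ∧ 0 ≤ σ.re ∧ σ.im ≤ 0 := by
  obtain ⟨w, hw⟩ := IsAlgClosed.exists_pow_nat_eq z (n := 2) two_pos
  have him : 2 * (w.re * w.im) ≤ 0 := by
    have h1 : z.im = 2 * (w.re * w.im) := by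
      rw [← hw, pow_two, Complex.mul_im]
      ring
    linarith
  rcases lt_trichotomy w.re 0 with h | h | h
  · refine ⟨-w, by rw [neg_sq, hw], by simpa using h.le, ?_⟩
    rw [Complex.neg_im]
    nlinarith
  · rcases le_total w.im 0 with h2 | h2
    · exact ⟨w, hw, h.ge, h2⟩
    · exact ⟨-w, by rw [neg_sq, hw], by simp [h], by simpa using h2⟩
  · exact ⟨w, hw, h.le, by nlinarith⟩

/-- The sector condition. -/
theorem sector {σ Y : ℂ} (h0 : σ ≠ 0) (hre : 0 ≤ σ.re) (him : σ.im ≤ 0)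
    (h : ‖σ - Y‖ ≤ ‖Y‖ / 2) : Y.im - Y.re < 0 := by
  by_contra hcon
  push Not at hcon
  have h1 : ‖σ - Y‖ ^ 2 ≤ (‖Y‖ / 2) ^ 2 := by gcongr
  have h2 : (‖Y‖ / 2) ^ 2 = ‖Y‖ ^ 2 / 4 := by ring
  rw [h2, Complex.sq_norm, Complex.sq_norm, Complex.normSq_apply, Complex.normSq_apply,
    Complex.sub_re, Complex.sub_im] at h1
  have h3 : σ.re ≠ 0 ∨ σ.im ≠ 0 := by
    by_contra hc
    push Not at hc
    exact h0 (Complex.ext hc.1 hc.2)
  have h4 : 0 < σ.re ^ 2 + σ.im ^ 2 := by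
    rcases h3 with h3 | h3
    · have := sq_nonneg σ.im; positivity
    · have := sq_nonneg σ.re; positivity
  set a := σ.re
  set b := σ.im
  set x := Y.re
  set y := Y.im
  rcases le_total 0 x with hx | hx
  · -- `y ≥ x ≥ 0`
    have hy : 0 ≤ y := by linarith
    have e1 : 0 ≤ -b * y := mul_nonneg (by linarith) hy
    have e2 : x * x ≤ y * y := mul_self_le_mul_self hx (by linarith)
    nlinarith [sq_nonneg (a - x), sq_nonneg b]
  · rcases le_total 0 y with hy | hy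
    · have e1 : 0 ≤ -b * y := mul_nonneg (by linarith) hy
      have e2 : 0 ≤ a * -x := mul_nonneg hre (by linarith)
      nlinarith [sq_nonneg x, sq_nonneg y]
    · have e2 : 0 ≤ a * -x := mul_nonneg hre (by linarith)
      have e3 : y * y ≤ x * x := by nlinarith
      nlinarith [sq_nonneg (b - y), sq_nonneg a]

/-- Real points. -/
theorem real_pt {W : Fin (n + 1) → ℂ} (h : W = fun k => conj (W k)) :
    ∃ x : Fin (n + 1) → ℝ, W = xC x := by
  refine ⟨fun k => (W k).re, funext fun k => ?_⟩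
  have h1 : conj (W k) = W k := (congrFun h k).symm
  exact (Complex.conj_eq_iff_re.mp h1).symm

section Kap

theorem piR_eq (q : RTup n l) (v : Fin (n + 1) → ℝ) :
    ∏ m : Fin l, qval (tC q m.succ) (xC v) = ((piR q v : ℝ) : ℂ) := by
  rw [piR]
  push_cast
  refine Finset.prod_congr rfl fun m _ => ?_
  simp [qval, tC, qvR, xC]

theorem piR_ne {q : RTup n l} {tv : ℝ} {v : Fin (n + 1) → ℝ}
    (hs : xC v ∈ SingF (f0 (addT (tC q) (tv : ℂ)))) : piR q v ≠ 0 := by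
  intro h0
  have h1 := hs.1
  rw [eval_f0, Fin.prod_univ_succ] at h1
  simp only [addT_succ] at h1
  rw [piR_eq, h0] at h1
  simp at h1

theorem mulVec_bv' {H : Matrix (Fin (n + 1)) (Fin (n + 1)) ℝ} (hdet : IsUnit H.det) :
    H.mulVec (bv H) = Pi.single (Fin.last n) 1 := by
  rw [bv, Matrix.mulVec_mulVec, Matrix.mul_nonsing_inv _ hdet, Matrix.one_mulVec]

theorem isUnit_of_inv_ne {H : Matrix (Fin (n + 1)) (Fin (n + 1)) ℝ}
    (h : H⁻¹ (Fin.last n) (Fin.last n) ≠ 0) : IsUnit H.det := by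
  by_contra hc
  rw [Matrix.nonsing_inv_apply_not_isUnit _ hc] at h
  simp at h

theorem isUnit_of_negDef {m : ℕ} {H : Matrix (Fin m) (Fin m) ℝ} (h : NegDef H) :
    IsUnit H.det := by
  rw [isUnit_iff_ne_zero]
  intro h0
  obtain ⟨x, hx, hHx⟩ := Matrix.exists_mulVec_eq_zero_iff.mpr h0
  have := h x hx
  rw [hHx] at this
  simp at this

theorem inv_neg_of_negDef {H : Matrix (Fin (n + 1)) (Fin (n + 1)) ℝ} (h : NegDef H) :
    H⁻¹ (Fin.last n) (Fin.last n) < 0 := by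
  have h1 := mulVec_bv' (isUnit_of_negDef h)
  have h2 : bv H ≠ 0 := by
    intro h0
    rw [h0, Matrix.mulVec_zero] at h1
    have := congrFun h1 (Fin.last n)
    simp at this
  have h3 := h _ h2
  rw [h1] at h3
  have h4 : bv H ⬝ᵥ Pi.single (Fin.last n) (1 : ℝ) = bv H (Fin.last n) := by simp
  rw [h4, bv_last] at h3
  exact h3

/-- The curvature of the discriminant curve. -/
theorem isKap_gq {q : RTup n l} {tv : ℝ} {v : Fin (n + 1) → ℝ}
    (hs : xC v ∈ SingF (f0 (addT (tC q) (tv : ℂ)))) {d : ℝ}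
    (hd : (HR (addT q tv) v)⁻¹ (Fin.last n) (Fin.last n) = d) (hd0 : d ≠ 0) :
    IsKap (gq (tC q)) (uv v tv) (((d⁻¹ : ℝ)) : ℂ) := by
  set H := HR (addT q tv) v with hH
  have hπ := piR_ne hs
  have hu : IsUnit H.det := isUnit_of_inv_ne (by rw [hd]; exact hd0)
  have hbl : bv H (Fin.last n) = d := by rw [bv_last, hd]
  have hbv := mulVec_bv' hu
  have hAR : AR (addT q tv) v = piR q v • H := by
    rw [hH, HR_eq, piR_addT, smul_smul, mul_inv_cancel₀ hπ, one_smul]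
  have hsymm := AR_isSymm (addT q tv) v
  -- the sums
  have hsum : ∀ j : Fin (n + 1), ∑ k, eval (xC v) (pderiv k (pderiv j
      (f0 (addT (tC q) (tv : ℂ))))) * ((bv H k * d⁻¹ : ℝ) : ℂ) =
      ((piR q v * (Pi.single (Fin.last n) (1 : ℝ) : Fin (n + 1) → ℝ) j * d⁻¹ : ℝ) : ℂ) := by
    intro j
    have e1 : ∀ k, eval (xC v) (pderiv k (pderiv j (f0 (addT (tC q) (tv : ℂ))))) =
        ((AR (addT q tv) v k j : ℝ) : ℂ) := by
      intro k
      have := congrFun (congrFun (hess_eq_map (addT q tv) v) k) j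
      rw [Lab.tC_addT] at this
      rw [← Matrix.map_apply (f := Complex.ofReal), ← this]
      rfl
    have e2 : ∑ k, AR (addT q tv) v k j * bv H k =
        piR q v * (Pi.single (Fin.last n) (1 : ℝ) : Fin (n + 1) → ℝ) j := by
      have e3 : (AR (addT q tv) v).mulVec (bv H) = piR q v • Pi.single (Fin.last n) (1 : ℝ) := by
        rw [hAR, Matrix.smul_mulVec, hbv]
      have e4 := congrFun e3 j
      rw [Pi.smul_apply, smul_eq_mul] at e4
      rw [← e4]
      refine Finset.sum_congr rfl fun k _ => ?_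
      rw [hsymm.apply]
    simp only [e1]
    rw [← e2, Finset.sum_mul]
    push_cast
    exact Finset.sum_congr rfl fun k _ => by ring
  have hxx : ∀ k, xx (((1, 0), ((fun i : Fin n => ((bv H i.castSucc * d⁻¹ : ℝ) : ℂ)), 0)) : Dm n) k
      = ((bv H k * d⁻¹ : ℝ) : ℂ) := by
    intro k
    refine Fin.lastCases ?_ (fun i => ?_) k
    · rw [xx_last, hbl, mul_inv_cancel₀ hd0]
      simp
    · rw [xx_castSucc]
  refine ⟨fun i => ((bv H i.castSucc * d⁻¹ : ℝ) : ℂ), ?_, ?_⟩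
  · funext j
    rw [fderiv_grd_gq (tC q) (uv v tv) (by simp)]
    simp only [hxx, xx_uv]
    rw [show (uv v tv).2.2 = (tv : ℂ) from rfl, hsum]
    simp
  · rw [fderiv_dτ_gq (tC q) (uv v tv) (by simp)]
    simp only [hxx, xx_uv]
    rw [show (uv v tv).2.2 = (tv : ℂ) from rfl, hsum, dT_gq, xx_uv, piR_eq]
    push_cast
    simp
    ring

end Kap

end Pool.Agent.QC.S5
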