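import Pool.Agent.QC.S5.Morse1

/-!
# MP_7c50a9_lc, section 5.1: the curve of critical points of `x_n` near a singular point

`g ((τ, η), (x', t))` is `f^η_{q+t} (x', τ)`.  Near a nondegenerate singular point the system
`g = 0`, `d_j g = 0` (`j < n`) is solved by `x' = X (τ, η)`, `t = φ (τ, η)`.
-/

namespace Pool.Agent.QC.S5

open Set Metric Filter Topology Complex ComplexConjugate
open scoped ContDiff

variable {n : ℕ}

/-- parameters `(τ, η)` and unknowns `(x', t)` -/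
abbrev Dm (n : ℕ) := (ℂ × ℂ) × ((Fin n → ℂ) × ℂ)

/-- the direction of the `j`-th variable `x'_j` -/
def dX (j : Fin n) : Dm n := (0, (Pi.single j 1, 0))

/-- the direction of `t` -/
def dT : Dm n := (0, (0, 1))

/-- the direction of `τ` -/
def dτ : Dm n := ((1, 0), 0)

/-- partial gradient in `x'` -/
noncomputable def grd (g : Dm n → ℂ) (p : Dm n) : Fin n → ℂ := fun j => fderiv ℂ g p (dX j)

/-- the system -/
noncomputable def Th (g : Dm n → ℂ) (p : Dm n) : (Fin n → ℂ) × ℂ := (grd g p, g p)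

theorem contDiff_grd {g : Dm n → ℂ} (hg : ContDiff ℂ ω g) : ContDiff ℂ ω (grd g) := by
  refine contDiff_pi.mpr fun j => ?_
  have h1 : ContDiff ℂ ω (fderiv ℂ g) := hg.fderiv_right (m := ω) (by simp)
  exact h1.clm_apply contDiff_const

theorem contDiff_Th {g : Dm n → ℂ} (hg : ContDiff ℂ ω g) : ContDiff ℂ ω (Th g) :=
  (contDiff_grd hg).prodMk hg

/-- Nondegenerate event at `u`. -/
structure NDEvent (g : Dm n → ℂ) (u : Dm n) : Prop where
  g0 : g u = 0
  grd0 : grd g u = 0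
  dτ0 : fderiv ℂ g u dτ = 0
  dTne : fderiv ℂ g u dT ≠ 0
  hess : ∀ e : Fin n → ℂ, fderiv ℂ (grd g) u (0, (e, 0)) = 0 → e = 0

theorem fderiv_inr_x {g : Dm n → ℂ} {u : Dm n} (h : grd g u = 0) (e : Fin n → ℂ) :
    fderiv ℂ g u (0, (e, 0)) = 0 := by
  have h1 : ((0, (e, 0)) : Dm n) = ∑ j, e j • dX j := by
    refine Prod.ext ?_ (Prod.ext ?_ ?_)
    · simp [dX, Prod.fst_sum]
    · funext i
      simp [dX, Prod.snd_sum, Prod.fst_sum, Finset.sum_apply, Pi.single_apply]
    · simp [dX, Prod.snd_sum]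
  rw [h1, map_sum]
  refine Finset.sum_eq_zero fun j _ => ?_
  rw [map_smul]
  have : fderiv ℂ g u (dX j) = 0 := congrFun h j
  rw [this, smul_zero]

theorem NDEvent.isInvertible {g : Dm n → ℂ} (hg : ContDiff ℂ ω g) {u : Dm n}
    (h : NDEvent g u) :
    (fderiv ℂ (Th g) u ∘L .inr ℂ (ℂ × ℂ) ((Fin n → ℂ) × ℂ)).IsInvertible := by
  set L := fderiv ℂ (Th g) u ∘L .inr ℂ (ℂ × ℂ) ((Fin n → ℂ) × ℂ) with hL
  have hd1 : DifferentiableAt ℂ (grd g) u :=
    ((contDiff_grd hg).differentiable (by simp)).differentiableAt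
  have hd2 : DifferentiableAt ℂ g u := (hg.differentiable (by simp)).differentiableAt
  have hfd : fderiv ℂ (Th g) u = (fderiv ℂ (grd g) u).prod (fderiv ℂ g u) :=
    hd1.fderiv_prodMk hd2
  have hinj : Function.Injective L := by
    rw [injective_iff_map_eq_zero]
    rintro ⟨e, s⟩ hes
    have h1 : (fderiv ℂ (grd g) u (0, (e, s)), fderiv ℂ g u (0, (e, s))) = 0 := by
      have := hes
      rw [hL, hfd] at this
      simpa using this
    have h2 : fderiv ℂ g u (0, (e, s)) = 0 := congrArg Prod.snd h1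
    have h3 : ((0, (e, s)) : Dm n) = (0, (e, 0)) + s • dT := by
      refine Prod.ext ?_ (Prod.ext ?_ ?_) <;> simp [dT]
    rw [h3, map_add, map_smul, fderiv_inr_x h.grd0, zero_add, smul_eq_mul] at h2
    have hs : s = 0 := (mul_eq_zero.mp h2).resolve_right h.dTne
    subst hs
    have h4 : fderiv ℂ (grd g) u (0, (e, 0)) = 0 := congrArg Prod.fst h1
    have := h.hess e h4
    rw [this]
    rfl
  refine ⟨(LinearEquiv.ofInjectiveEndo L.toLinearMap hinj).toContinuousLinearEquiv, ?_⟩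
  ext x <;> rfl

/-- The solution curve. -/
theorem exists_curve {g : Dm n → ℂ} (hg : ContDiff ℂ ω g) {u : Dm n} (h : NDEvent g u) :
    ∃ ψ : ℂ × ℂ → (Fin n → ℂ) × ℂ, ContDiffAt ℂ ω ψ u.1 ∧ ψ u.1 = u.2 ∧
      ∀ᶠ p in 𝓝 u, (g p = 0 ∧ grd g p = 0) ↔ ψ p.1 = p.2 := by
  have hTh : ContDiffAt ℂ ω (Th g) u := (contDiff_Th hg).contDiffAt
  have hinv := h.isInvertible hg
  refine ⟨hTh.implicitFunction (by simp) hinv, hTh.contDiffAt_implicitFunction (by simp) hinv,
    hTh.implicitFunction_apply_self (by simp) hinv, ?_⟩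
  filter_upwards [hTh.eventually_apply_eq_iff_implicitFunction (by simp) hinv] with p hp
  rw [← hp]
  have hu : Th g u = 0 := by
    unfold Th
    rw [h.g0, h.grd0]
    rfl
  rw [hu]
  unfold Th
  constructor
  · rintro ⟨h1, h2⟩
    rw [h1, h2]
    rfl
  · intro h1
    exact ⟨congrArg Prod.snd h1, congrArg Prod.fst h1⟩

/-! ### Conjugation -/

/-- complex conjugation on the domain -/
def cj (p : Dm n) : Dm n :=
  ((conj p.1.1, conj p.1.2), (fun j => conj (p.2.1 j), conj p.2.2))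

theorem cj_cj (p : Dm n) : cj (cj p) = p := by
  simp [cj]

theorem continuous_cj : Continuous (cj (n := n)) := by
  unfold cj
  have h : Continuous (fun z : ℂ => conj z) := Complex.continuous_conj
  refine ((h.comp (continuous_fst.comp continuous_fst)).prodMk
    (h.comp (continuous_snd.comp continuous_fst))).prodMk ?_
  refine Continuous.prodMk (continuous_pi fun j => ?_)
    (h.comp (continuous_snd.comp continuous_snd))
  exact h.comp ((continuous_apply j).comp (continuous_fst.comp continuous_snd))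

theorem cj_add_smul (p v : Dm n) (ε : ℝ) : cj (p + (ε : ℂ) • v) = cj p + (ε : ℂ) • cj v := by
  refine Prod.ext (Prod.ext ?_ ?_) (Prod.ext ?_ ?_)
  · simp [cj]
  · simp [cj]
  · funext j
    simp [cj]
  · simp [cj]

theorem fderiv_cj {g : Dm n → ℂ} (hd : Differentiable ℂ g) (hg : ∀ p, g (cj p) = conj (g p))
    (p v : Dm n) : fderiv ℂ g (cj p) (cj v) = conj (fderiv ℂ g p v) := by
  have key : ∀ p v : Dm n, HasDerivAt (fun ε : ℝ => g (p + (ε : ℂ) • v)) (fderiv ℂ g p v) 0 := by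
    intro p v
    have h1 : HasDerivAt (fun ε : ℝ => p + (ε : ℂ) • v) v 0 := by
      have h2 : HasDerivAt (fun ε : ℝ => (ε : ℂ)) 1 0 := Complex.ofRealCLM.hasDerivAt
      have h3 := h2.smul_const v
      simpa using h3.const_add p
    have h4 : HasFDerivAt g (fderiv ℂ g p) (p + ((0 : ℝ) : ℂ) • v) := by
      simpa using (hd p).hasFDerivAt
    exact (h4.restrictScalars ℝ).comp_hasDerivAt 0 h1
  have h1 := key (cj p) (cj v)
  have h2 : (fun ε : ℝ => g (cj p + (ε : ℂ) • cj v)) =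
      fun ε : ℝ => conj (g (p + (ε : ℂ) • v)) := by
    funext ε
    rw [← cj_add_smul, hg]
  rw [h2] at h1
  have h3 : HasDerivAt (fun ε : ℝ => conj (g (p + (ε : ℂ) • v))) (conj (fderiv ℂ g p v)) 0 :=
    (Complex.conjCLE.toContinuousLinearMap.hasFDerivAt).comp_hasDerivAt (0 : ℝ) (key p v)
  exact h1.unique h3

theorem cj_dX (j : Fin n) : cj (dX j) = dX j := by
  refine Prod.ext (Prod.ext ?_ ?_) (Prod.ext ?_ ?_)
  · simp [cj, dX]
  · simp [cj, dX]
  · funext i
    simp only [cj, dX, Pi.single_apply]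
    split_ifs <;> simp
  · simp [cj, dX]

theorem grd_cj {g : Dm n → ℂ} (hd : Differentiable ℂ g) (hg : ∀ p, g (cj p) = conj (g p))
    (p : Dm n) : grd g (cj p) = fun j => conj (grd g p j) := by
  funext j
  have := fderiv_cj hd hg p (dX j)
  rw [cj_dX] at this
  exact this

theorem solves_cj {g : Dm n → ℂ} (hd : Differentiable ℂ g) (hg : ∀ p, g (cj p) = conj (g p))
    (p : Dm n) (h : g p = 0 ∧ grd g p = 0) : g (cj p) = 0 ∧ grd g (cj p) = 0 := by
  refine ⟨by rw [hg, h.1, map_zero], ?_⟩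
  rw [grd_cj hd hg, h.2]
  funext j
  simp

/-- The curve commutes with conjugation. -/
theorem curve_conj {g : Dm n → ℂ} (hd : Differentiable ℂ g) (hg : ∀ p, g (cj p) = conj (g p))
    {u : Dm n} (hu : cj u = u) {ψ : ℂ × ℂ → (Fin n → ℂ) × ℂ} (hc : ContinuousAt ψ u.1)
    (h0 : ψ u.1 = u.2) (hψ : ∀ᶠ p in 𝓝 u, (g p = 0 ∧ grd g p = 0) ↔ ψ p.1 = p.2) :
    ∀ᶠ q in 𝓝 u.1, ψ (conj q.1, conj q.2) =
      (fun j => conj ((ψ q).1 j), conj (ψ q).2) := by
  have hΓ : ContinuousAt (fun q : ℂ × ℂ => ((q, ψ q) : Dm n)) u.1 := continuousAt_id.prodMk hc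
  have hΓu : (u.1, ψ u.1) = u := by rw [h0]
  have h1 : ∀ᶠ q in 𝓝 u.1, (g (q, ψ q) = 0 ∧ grd g (q, ψ q) = 0) := by
    have h2 : Tendsto (fun q : ℂ × ℂ => ((q, ψ q) : Dm n)) (𝓝 u.1) (𝓝 u) := by
      have := hΓ.tendsto
      rwa [hΓu] at this
    filter_upwards [h2.eventually hψ] with q hq
    exact hq.mpr rfl
  have h3 : Tendsto (fun q : ℂ × ℂ => cj ((q, ψ q) : Dm n)) (𝓝 u.1) (𝓝 u) := by
    have := (continuous_cj.continuousAt (x := ((u.1, ψ u.1) : Dm n))).tendsto.comp hΓ.tendsto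
    rw [hΓu, hu] at this
    exact this
  filter_upwards [h1, h3.eventually hψ] with q hq1 hq2
  have := hq2.mp (solves_cj hd hg _ hq1)
  exact this

end Pool.Agent.QC.S5
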