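import Pool.Agent.QC.S5.Morse1

/-!
# MP_7c50a9_lc, section 5.1: the Morse lemma for a family

`φ (τ, η)` holomorphic near `(v, 0)`, real on reals, with a nondegenerate critical point in `τ`
at `(v, 0)`.  For all small real `η` the Morse lemma holds on one fixed disc.
-/

namespace Pool.Agent.QC.S5

open Set Metric Filter Topology Complex ComplexConjugate
open scoped ContDiff

/-- derivative in the first variable -/
noncomputable def D1 (φ : ℂ × ℂ → ℂ) (q : ℂ × ℂ) : ℂ := fderiv ℂ φ q (1, 0)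

theorem hasDerivAt_slice {φ : ℂ × ℂ → ℂ} {τ η : ℂ} (h : DifferentiableAt ℂ φ (τ, η)) :
    HasDerivAt (fun z => φ (z, η)) (D1 φ (τ, η)) τ := by
  have h1 : HasDerivAt (fun z : ℂ => ((z, η) : ℂ × ℂ)) (1, 0) τ :=
    (hasDerivAt_id τ).prodMk (hasDerivAt_const τ η)
  exact h.hasFDerivAt.comp_hasDerivAt τ h1

theorem contDiffAt_D1 {φ : ℂ × ℂ → ℂ} {q : ℂ × ℂ} (h : ContDiffAt ℂ ω φ q) :
    ContDiffAt ℂ ω (D1 φ) q := by
  have h1 : ContDiffAt ℂ ω (fderiv ℂ φ) q := h.fderiv_right (m := ω) (by simp)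
  exact h1.clm_apply contDiffAt_const

theorem morse_family {φ : ℂ × ℂ → ℂ} {v t₀ κ ε : ℝ} (hφ : ContDiffAt ℂ ω φ ((v : ℂ), 0))
    (h0 : φ (v, 0) = t₀) (h1 : D1 φ (v, 0) = 0) (h2 : D1 (D1 φ) (v, 0) = -(ε * κ))
    (hε : ε = 1 ∨ ε = -1) (hκ : 0 < κ)
    (hconj : ∀ᶠ q in 𝓝 (((v : ℂ), 0) : ℂ × ℂ), φ (conj q.1, conj q.2) = conj (φ q)) :
    ∃ R₀ > 0, ∀ R ∈ Ioc 0 R₀, ∃ ρ₀ > 0, ∀ ρ ∈ Ioc 0 ρ₀, ∃ η₀ > 0, ∀ η : ℝ, |η| < η₀ →
      ∃ (τη tη : ℝ) (h : ℂ → ℂ), |τη - v| < R / 4 ∧ |tη - t₀| < ρ / 4 ∧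
        φ (τη, η) = tη ∧ h 0 = τη ∧ D1 φ (τη, η) = 0 ∧
        (∀ τ ∈ ball (v : ℂ) R, D1 φ (τ, η) = 0 → τ = τη) ∧
        DifferentiableOn ℂ h {σ | ‖σ‖ ^ 2 < 2 * ρ} ∧
        (∀ σ : ℂ, ‖σ‖ ^ 2 < 2 * ρ → h σ ∈ ball (v : ℂ) (R / 2) ∧
          φ (h σ, η) = tη - ε * σ ^ 2) ∧
        (∀ σ : ℂ, ‖σ‖ ^ 2 < 2 * ρ → ∀ τ ∈ ball (v : ℂ) R, φ (τ, η) = tη - ε * σ ^ 2 →
          τ = h σ ∨ τ = h (-σ)) ∧
        (∀ σ : ℂ, ‖σ‖ ^ 2 < 2 * ρ → h (conj σ) = conj (h σ)) ∧
        (∀ σ σ' : ℂ, ‖σ‖ ^ 2 < 2 * ρ → ‖σ'‖ ^ 2 < 2 * ρ →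
          ‖(σ - σ') - Real.sqrt (κ / 2) * (h σ - h σ')‖ ≤
            Real.sqrt (κ / 2) / 2 * ‖h σ - h σ'‖) := by
  have hεε : ε * ε = 1 := by rcases hε with rfl | rfl <;> norm_num
  have hεabs : |ε| = 1 := by rcases hε with rfl | rfl <;> norm_num
  have hεn : ‖(ε : ℂ)‖ = 1 := by rw [Complex.norm_real]; exact hεabs
  set q₀ : ℂ × ℂ := ((v : ℂ), 0) with hq₀
  -- good neighbourhood
  have hev : ∀ᶠ q in 𝓝 q₀, ContDiffAt ℂ ω φ q ∧ ‖D1 (D1 φ) q + ε * κ‖ < κ / 8 ∧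
      φ (conj q.1, conj q.2) = conj (φ q) := by
    have e1 : ∀ᶠ q in 𝓝 q₀, ContDiffAt ℂ ω φ q := hφ.eventually (by simp)
    have e2 : ContinuousAt (fun q => ‖D1 (D1 φ) q + ε * κ‖) q₀ :=
      ((contDiffAt_D1 (contDiffAt_D1 hφ)).continuousAt.add continuousAt_const).norm
    have e3 : ‖D1 (D1 φ) q₀ + ε * κ‖ < κ / 8 := by
      rw [hq₀, h2]
      simp
      exact hκ
    filter_upwards [e1, e2.eventually (gt_mem_nhds e3), hconj] with q a b c
    exact ⟨a, b, c⟩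
  obtain ⟨r, hr, hball⟩ := Metric.eventually_nhds_iff_ball.mp hev
  -- `r` : all good on the ball of radius `r` of the product
  have hgood : ∀ τ η : ℂ, τ ∈ ball (v : ℂ) r → ‖η‖ < r →
      ContDiffAt ℂ ω φ (τ, η) ∧ ‖D1 (D1 φ) (τ, η) + ε * κ‖ < κ / 8 ∧
      φ (conj τ, conj η) = conj (φ (τ, η)) := by
    intro τ η hτ hη
    refine hball (τ, η) ?_
    rw [mem_ball, Prod.dist_eq, max_lt_iff]
    exact ⟨hτ, by simpa [hq₀] using hη⟩
  refine ⟨r / 4, by positivity, fun R hR => ?_⟩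
  have hR0 := hR.1
  have hRr : 4 * R ≤ r := by linarith [hR.2]
  set c := Real.sqrt (κ / 2) with hc
  have hc0 : 0 < c := Real.sqrt_pos.mpr (by linarith)
  refine ⟨(c * R / 8) ^ 2 / 2, by positivity, fun ρ hρ => ?_⟩
  have hρ0 := hρ.1
  -- smallness in `η`
  have hcont1 : ContinuousAt (fun η : ℝ => ‖D1 φ (v, η)‖) 0 := by
    have a : ContinuousAt (D1 φ) (((v : ℂ), ((0 : ℝ) : ℂ)) : ℂ × ℂ) := by
      have := (contDiffAt_D1 hφ).continuousAt
      simpa [hq₀] using this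
    have b : ContinuousAt (fun η : ℝ => (((v : ℂ), (η : ℂ)) : ℂ × ℂ)) 0 := by fun_prop
    exact (ContinuousAt.comp (f := fun η : ℝ => (((v : ℂ), (η : ℂ)) : ℂ × ℂ)) (g := D1 φ) a b).norm
  have hcont2 : ContinuousAt (fun η : ℝ => ‖φ (v, η) - t₀‖) 0 := by
    have a : ContinuousAt φ (((v : ℂ), ((0 : ℝ) : ℂ)) : ℂ × ℂ) := by
      have := hφ.continuousAt
      simpa [hq₀] using this
    have b : ContinuousAt (fun η : ℝ => (((v : ℂ), (η : ℂ)) : ℂ × ℂ)) 0 := by fun_prop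
    exact ((ContinuousAt.comp (f := fun η : ℝ => (((v : ℂ), (η : ℂ)) : ℂ × ℂ)) (g := φ) a b).sub
      continuousAt_const).norm
  set ζ := min (κ * R / 16) (min (κ * R / 8) (Real.sqrt (κ * ρ / 16) )) with hζ
  have hζ0 : 0 < ζ := by
    have : 0 < Real.sqrt (κ * ρ / 16) := Real.sqrt_pos.mpr (by positivity)
    rw [hζ]
    positivity
  have ev1 : ∀ᶠ η : ℝ in 𝓝 0, ‖D1 φ (v, η)‖ < ζ := by
    have : ‖D1 φ (v, ((0 : ℝ) : ℂ))‖ < ζ := by
      rw [Complex.ofReal_zero, ← hq₀, h1, norm_zero]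
      exact hζ0
    exact hcont1.eventually (gt_mem_nhds this)
  have ev2 : ∀ᶠ η : ℝ in 𝓝 0, ‖φ (v, η) - t₀‖ < ρ / 8 := by
    have : ‖φ (v, ((0 : ℝ) : ℂ)) - t₀‖ < ρ / 8 := by
      rw [Complex.ofReal_zero, ← hq₀, h0, sub_self, norm_zero]
      linarith
    exact hcont2.eventually (gt_mem_nhds this)
  obtain ⟨η₁, hη₁, hη₁b⟩ := Metric.eventually_nhds_iff_ball.mp (ev1.and ev2)
  refine ⟨min η₁ r, lt_min hη₁ hr, fun η hη => ?_⟩
  have hηr : ‖(η : ℂ)‖ < r := by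
    rw [Complex.norm_real]
    exact hη.trans_le (min_le_right _ _)
  obtain ⟨hζη, hρη⟩ := hη₁b η (by
    rw [mem_ball, dist_zero_right]; exact hη.trans_le (min_le_left _ _))
  -- the slice
  set f : ℂ → ℂ := fun τ => φ (τ, η) with hf
  have hfd : ∀ τ ∈ ball (v : ℂ) r, HasDerivAt f (D1 φ (τ, η)) τ := fun τ hτ =>
    hasDerivAt_slice (((hgood τ η hτ hηr).1.differentiableAt (by simp)))
  have hfd2 : ∀ τ ∈ ball (v : ℂ) r, HasDerivAt (fun z => D1 φ (z, η)) (D1 (D1 φ) (τ, η)) τ :=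
    fun τ hτ => hasDerivAt_slice ((contDiffAt_D1 (hgood τ η hτ hηr).1).differentiableAt (by simp))
  have hd1 : ∀ τ ∈ ball (v : ℂ) r, deriv f τ = D1 φ (τ, η) := fun τ hτ => (hfd τ hτ).deriv
  have hd2 : ∀ τ ∈ ball (v : ℂ) r, deriv (deriv f) τ = D1 (D1 φ) (τ, η) := by
    intro τ hτ
    have h3 : deriv f =ᶠ[𝓝 τ] fun z => D1 φ (z, η) := by
      filter_upwards [isOpen_ball.mem_nhds hτ] with z hz
      exact hd1 z hz
    rw [h3.deriv_eq]
    exact (hfd2 τ hτ).deriv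
  have hvr : (v : ℂ) ∈ ball (v : ℂ) r := mem_ball_self hr
  -- estimate of the first derivative
  have hE : ∀ x ∈ ball (v : ℂ) r, ∀ y ∈ ball (v : ℂ) r,
      ‖D1 φ (x, η) - D1 φ (y, η) + ε * κ * (x - y)‖ ≤ κ / 8 * ‖x - y‖ := by
    intro x hx y hy
    have := (convex_ball (v : ℂ) r).norm_image_sub_le_of_norm_hasDerivWithin_le
      (f := fun z => D1 φ (z, η) + ε * κ * z) (f' := fun z => D1 (D1 φ) (z, η) + ε * κ)
      (C := κ / 8) (x := y) (y := x) ?_ (fun z hz => (hgood z η hz hηr).2.1.le) hy hx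
    · have h3 : D1 φ (x, η) - D1 φ (y, η) + ε * κ * (x - y) =
          D1 φ (x, η) + ε * κ * x - (D1 φ (y, η) + ε * κ * y) := by ring
      rw [h3]
      exact this
    · intro z hz
      have h4 : HasDerivAt (fun z : ℂ => (ε : ℂ) * κ * z) (ε * κ) z := by
        simpa using (hasDerivAt_id z).const_mul ((ε : ℂ) * κ)
      exact ((hfd2 z hz).add h4).hasDerivWithinAt
  -- reality of the first derivative
  have hreal : ∀ τ : ℝ, (τ : ℂ) ∈ ball (v : ℂ) r → (D1 φ (τ, η)).im = 0 := by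
    intro τ hτ
    -- real derivative of a real valued function
    have h3 : HasDerivAt (fun s : ℝ => f s) (D1 φ (τ, η)) τ := by
      have := (hfd τ hτ)
      exact this.comp_ofReal
    have h4 : HasDerivAt (fun s : ℝ => (f s).im) (D1 φ (τ, η)).im τ :=
      (Complex.imCLM.hasFDerivAt).comp_hasDerivAt τ h3
    have h5 : (fun s : ℝ => (f s).im) =ᶠ[𝓝 τ] fun _ => (0 : ℝ) := by
      have h6 : ∀ᶠ s : ℝ in 𝓝 τ, (s : ℂ) ∈ ball (v : ℂ) r :=
        (Complex.continuous_ofReal.continuousAt (x := τ)).eventually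
          (isOpen_ball.mem_nhds hτ)
      filter_upwards [h6] with s hs
      have h7 := (hgood s η hs hηr).2.2
      rw [Complex.conj_ofReal, Complex.conj_ofReal] at h7
      exact Complex.conj_eq_iff_im.mp h7.symm
    exact h4.unique ((hasDerivAt_const τ (0 : ℝ)).congr_of_eventuallyEq h5)
  -- the critical point
  have hδ : ∀ τ : ℝ, |τ - v| ≤ R / 8 → (τ : ℂ) ∈ ball (v : ℂ) r := by
    intro τ hτ
    rw [mem_ball, dist_eq_norm, ← Complex.ofReal_sub, Complex.norm_real]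
    exact lt_of_le_of_lt hτ (by linarith)
  have hκR : ζ ≤ κ * R / 16 := min_le_left _ _
  obtain ⟨τη, hτηI, hτη0⟩ : ∃ τη ∈ Icc (v - R / 8) (v + R / 8), (ε * (D1 φ (τη, η)).re) = 0 := by
    have hcontin : ContinuousOn (fun τ : ℝ => ε * (D1 φ (τ, η)).re)
        (Icc (v - R / 8) (v + R / 8)) := by
      intro τ hτ
      have h3 : (τ : ℂ) ∈ ball (v : ℂ) r := hδ τ (by
        rw [abs_le]; constructor <;> linarith [hτ.1, hτ.2])
      have h4 : ContinuousAt (fun z : ℂ => D1 φ (z, η)) τ := (hfd2 τ h3).continuousAt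
      have h5 : ContinuousAt (fun s : ℝ => D1 φ (s, η)) τ :=
        ContinuousAt.comp (f := fun s : ℝ => (s : ℂ)) (g := fun z : ℂ => D1 φ (z, η)) h4
          Complex.continuous_ofReal.continuousAt
      exact (continuousAt_const.mul (Complex.continuous_re.continuousAt.comp h5)
        ).continuousWithinAt
    have hval : ∀ s : ℝ, |s| = R / 8 → |ε * (D1 φ ((v + s : ℝ), η)).re + κ * s| < κ * R / 8 := by
      intro s hs
      have hvs : ((v + s : ℝ) : ℂ) ∈ ball (v : ℂ) r := hδ _ (by simp [hs])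
      have h3 := hE _ hvs _ hvr
      have h4 : ‖(ε : ℂ) * D1 φ ((v + s : ℝ), η) + κ * s‖ ≤ κ / 8 * (R / 8) + ζ := by
        have h5 : (ε : ℂ) * D1 φ ((v + s : ℝ), η) + κ * s =
            ε * (D1 φ ((v + s : ℝ), η) - D1 φ (v, η) + ε * κ * (((v + s : ℝ) : ℂ) - v)) +
              ε * D1 φ (v, η) := by
          have : (ε : ℂ) * ε = 1 := by exact_mod_cast hεε
          push_cast
          linear_combination (-(κ : ℂ) * s) * this
        rw [h5]
        refine (norm_add_le _ _).trans ?_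
        rw [norm_mul, norm_mul, hεn, one_mul, one_mul]
        have h6 : ‖(((v + s : ℝ) : ℂ) - v)‖ = R / 8 := by
          rw [← Complex.ofReal_sub, Complex.norm_real]
          simpa using hs
        rw [h6] at h3
        linarith
      have h5 : |((ε : ℂ) * D1 φ ((v + s : ℝ), η) + κ * s).re| ≤ κ / 8 * (R / 8) + ζ :=
        (Complex.abs_re_le_norm _).trans h4
      have h6 : ((ε : ℂ) * D1 φ ((v + s : ℝ), η) + κ * s).re =
          ε * (D1 φ ((v + s : ℝ), η)).re + κ * s := by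
        simp
      rw [h6] at h5
      refine lt_of_le_of_lt h5 ?_
      nlinarith
    have hneg := hval (R / 8) (abs_of_pos (by linarith))
    have hpos := hval (-(R / 8)) (by rw [abs_neg, abs_of_pos (by linarith)])
    have h3 := (abs_lt.mp hneg).2
    have h4 := (abs_lt.mp hpos).1
    have h5 : (0 : ℝ) ∈ Icc (ε * (D1 φ ((v + R / 8 : ℝ), η)).re)
        (ε * (D1 φ ((v - R / 8 : ℝ), η)).re) := by
      constructor
      · linarith
      · have : (v + -(R / 8) : ℝ) = v - R / 8 := by ring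
        rw [this] at h4
        linarith
    have h6 := intermediate_value_Icc' (by linarith : v - R / 8 ≤ v + R / 8) hcontin h5
    obtain ⟨τη, h7, h8⟩ := h6
    exact ⟨τη, h7, h8⟩
  have hτηr : (τη : ℂ) ∈ ball (v : ℂ) r := hδ τη (by
    rw [abs_le]; constructor <;> linarith [hτηI.1, hτηI.2])
  have hcr : D1 φ (τη, η) = 0 := by
    apply Complex.ext
    · have : ε ≠ 0 := by rcases hε with rfl | rfl <;> norm_num
      simpa [this] using hτη0
    · simpa using hreal τη hτηr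
  -- distance of the critical point
  have hdist : κ * (7 / 8) * |τη - v| ≤ ζ := by
    have h3 := hE _ hτηr _ hvr
    rw [hcr, zero_sub] at h3
    have h4 : ‖(ε : ℂ) * κ * (τη - v)‖ = κ * |τη - v| := by
      rw [norm_mul, norm_mul, hεn, one_mul, Complex.norm_real, Real.norm_of_nonneg hκ.le,
        ← Complex.ofReal_sub, Complex.norm_real, Real.norm_eq_abs]
    have h5 : ‖(τη : ℂ) - v‖ = |τη - v| := by
      rw [← Complex.ofReal_sub, Complex.norm_real, Real.norm_eq_abs]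
    rw [h5] at h3
    have h6 : ‖(ε : ℂ) * κ * (τη - v)‖ ≤
        ‖-D1 φ (v, η) + ε * κ * (τη - v)‖ + ‖D1 φ (v, η)‖ := by
      have : (ε : ℂ) * κ * (τη - v) = (-D1 φ (v, η) + ε * κ * (τη - v)) + D1 φ (v, η) := by ring
      calc ‖(ε : ℂ) * κ * (τη - v)‖ = ‖(-D1 φ (v, η) + ε * κ * (τη - v)) + D1 φ (v, η)‖ := by
            rw [← this]
        _ ≤ _ := norm_add_le _ _
    rw [h4] at h6
    linarith
  have hτηv : |τη - v| ≤ R / 8 := by
    rw [abs_le]; constructor <;> linarith [hτηI.1, hτηI.2]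
  -- apply the Morse lemma on `ball τη (2R)`
  have hsubr : ball (τη : ℂ) (2 * R) ⊆ ball (v : ℂ) r := by
    refine ball_subset_ball' ?_
    rw [dist_eq_norm, ← Complex.ofReal_sub, Complex.norm_real, Real.norm_eq_abs]
    linarith
  have hconjf : ∀ τ ∈ ball (v : ℂ) r, f (conj τ) = conj (f τ) := by
    intro τ hτ
    have := (hgood τ η hτ hηr).2.2
    rwa [Complex.conj_ofReal] at this
  obtain ⟨h, hh1, hh2, hh3, hh4, hh5, hh6⟩ := morse1 (φ := fun τ => ε * f τ) (τ₀ := τη) (κ := κ)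
    (R := 2 * R) hκ (by linarith) (fun τ hτ => ((hfd τ (hsubr hτ)).differentiableAt.const_mul
      _).differentiableWithinAt)
    (by
      rw [deriv_const_mul _ (hfd _ hτηr).differentiableAt, hd1 _ hτηr, hcr, mul_zero])
    (by
      intro τ hτ
      have h3 : deriv (fun τ => (ε : ℂ) * f τ) =ᶠ[𝓝 τ] fun z => ε * deriv f z := by
        filter_upwards [isOpen_ball.mem_nhds (hsubr hτ)] with z hz
        exact deriv_const_mul _ (hfd z hz).differentiableAt
      have h4 : DifferentiableAt ℂ (deriv f) τ := by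
        have h5 : deriv f =ᶠ[𝓝 τ] fun z => D1 φ (z, η) := by
          filter_upwards [isOpen_ball.mem_nhds (hsubr hτ)] with z hz
          exact hd1 z hz
        exact (hfd2 τ (hsubr hτ)).differentiableAt.congr_of_eventuallyEq h5
      rw [h3.deriv_eq, deriv_const_mul _ h4, hd2 τ (hsubr hτ)]
      have h5 : (ε : ℂ) * D1 (D1 φ) (τ, η) + κ = ε * (D1 (D1 φ) (τ, η) + ε * κ) := by
        have : (ε : ℂ) * ε = 1 := by exact_mod_cast hεε
        linear_combination (-(κ : ℂ)) * this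
      rw [h5, norm_mul, hεn, one_mul]
      exact (hgood τ η (hsubr hτ) hηr).2.1.le)
    (by
      intro τ hτ
      rw [hconjf τ (hsubr hτ), map_mul, Complex.conj_ofReal])
  rw [← hc] at hh1 hh3 hh4 hh5 hh6
  have hrad : ∀ σ : ℂ, ‖σ‖ ^ 2 < 2 * ρ → ‖σ‖ < c * R / 8 := by
    intro σ hσ
    have h3 : ‖σ‖ ^ 2 < (c * R / 8) ^ 2 := by
      have := hρ.2
      linarith
    exact lt_of_pow_lt_pow_left₀ 2 (by positivity) h3
  have hmem : ∀ σ : ℂ, ‖σ‖ ^ 2 < 2 * ρ → σ ∈ ball (0 : ℂ) (c * (2 * R) / 4) := by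
    intro σ hσ
    rw [mem_ball_zero_iff]
    have := hrad σ hσ
    have : 0 < c * R := by positivity
    linarith
  have h0mem : (0 : ℂ) ∈ ball (0 : ℂ) (c * (2 * R) / 4) := mem_ball_self (by positivity)
  have hεc : (ε : ℂ) * ε = 1 := by exact_mod_cast hεε
  have hε0 : (ε : ℂ) ≠ 0 := by
    intro h3
    rw [h3] at hεc
    simp at hεc
  obtain ⟨tη, htη⟩ : ∃ tη : ℝ, f τη = tη := by
    have h3 := hconjf _ hτηr
    rw [Complex.conj_ofReal] at h3
    exact ⟨(f τη).re, (Complex.conj_eq_iff_re.mp h3.symm).symm⟩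
  refine ⟨τη, tη, h, by linarith, ?_, htη, hh2, hcr, ?_, ?_, ?_, ?_, ?_, ?_⟩
  · -- `tη` close to `t₀`
    have h3 : ‖f v - f τη‖ ≤ (9 / 8 * κ * |τη - v|) * |τη - v| := by
      -- mean value on the closed ball
      have hsub : closedBall (τη : ℂ) |τη - v| ⊆ ball (v : ℂ) r := by
        intro z hz
        rw [mem_closedBall, dist_eq_norm] at hz
        rw [mem_ball, dist_eq_norm]
        have : ‖(τη : ℂ) - v‖ = |τη - v| := by
          rw [← Complex.ofReal_sub, Complex.norm_real, Real.norm_eq_abs]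
        calc ‖z - v‖ = ‖(z - τη) + (τη - v)‖ := by ring_nf
          _ ≤ ‖z - τη‖ + ‖(τη : ℂ) - v‖ := norm_add_le _ _
          _ < r := by rw [this]; linarith
      have hd : ‖(v : ℂ) - τη‖ = |τη - v| := by
        rw [← Complex.ofReal_sub, Complex.norm_real, Real.norm_eq_abs, abs_sub_comm]
      have := (convex_closedBall (τη : ℂ) |τη - v|).norm_image_sub_le_of_norm_hasDerivWithin_le
        (f := f) (f' := fun z => D1 φ (z, η)) (C := 9 / 8 * κ * |τη - v|)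
        (x := (τη : ℂ)) (y := (v : ℂ)) (fun z hz => (hfd z (hsub hz)).hasDerivWithinAt) ?_
        (by simp) (by rw [mem_closedBall, dist_eq_norm, hd])
      · rw [hd] at this
        exact this
      · intro z hz
        have h4 := hE z (hsub hz) _ hτηr
        rw [hcr, sub_zero] at h4
        have h5 : ‖z - τη‖ ≤ |τη - v| := by simpa [dist_eq_norm] using hz
        have h6 : ‖(ε : ℂ) * κ * (z - τη)‖ = κ * ‖z - τη‖ := by
          rw [norm_mul, norm_mul, hεn, one_mul, Complex.norm_real, Real.norm_of_nonneg hκ.le]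
        have h7 : ‖D1 φ (z, η)‖ ≤ ‖D1 φ (z, η) + ε * κ * (z - τη)‖ + ‖(ε : ℂ) * κ * (z - τη)‖ := by
          have : D1 φ (z, η) = (D1 φ (z, η) + ε * κ * (z - τη)) - ε * κ * (z - τη) := by ring
          calc ‖D1 φ (z, η)‖ = ‖(D1 φ (z, η) + ε * κ * (z - τη)) - ε * κ * (z - τη)‖ := by
                rw [← this]
            _ ≤ _ := norm_sub_le _ _
        rw [h6] at h7
        have h8 : κ / 8 * ‖z - τη‖ + κ * ‖z - τη‖ ≤ 9 / 8 * κ * |τη - v| := by nlinarith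
        linarith
    have h4 : ‖(tη : ℂ) - t₀‖ ≤ ‖f v - f τη‖ + ‖f v - t₀‖ := by
      have : (tη : ℂ) - t₀ = (f v - t₀) - (f v - f τη) := by rw [htη]; ring
      rw [this]
      refine (norm_sub_le _ _).trans ?_
      linarith
    have h5 : ‖(tη : ℂ) - t₀‖ = |tη - t₀| := by
      rw [← Complex.ofReal_sub, Complex.norm_real, Real.norm_eq_abs]
    rw [h5] at h4
    have h6 : ζ ≤ Real.sqrt (κ * ρ / 16) := (min_le_right _ _).trans (min_le_right _ _)
    have h7 : ζ ^ 2 ≤ κ * ρ / 16 := by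
      have := Real.sq_sqrt (by positivity : 0 ≤ κ * ρ / 16)
      calc ζ ^ 2 ≤ (Real.sqrt (κ * ρ / 16)) ^ 2 := by gcongr
        _ = _ := this
    have h8 : (κ * (7 / 8) * |τη - v|) ^ 2 ≤ ζ ^ 2 := by
      have : 0 ≤ κ * (7 / 8) * |τη - v| := by positivity
      gcongr
    have h9 : κ * |τη - v| ^ 2 ≤ ρ / 16 * (64 / 49) := by
      have h10 : (κ * (7 / 8) * |τη - v|) ^ 2 ≤ κ * ρ / 16 := h8.trans h7
      have h11 : κ * (κ * |τη - v| ^ 2) ≤ κ * (ρ / 16 * (64 / 49)) := by nlinarith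
      exact le_of_mul_le_mul_left h11 hκ
    have h10 : (9 / 8 * κ * |τη - v|) * |τη - v| = 9 / 8 * (κ * |τη - v| ^ 2) := by ring
    rw [h10] at h3
    have h11 : ‖f v - t₀‖ < ρ / 8 := hρη
    linarith
  · intro τ hτ h0τ
    have hτr : τ ∈ ball (v : ℂ) r := ball_subset_ball (by linarith) hτ
    have h3 := hE τ hτr _ hτηr
    rw [hcr, h0τ, sub_zero, zero_add, norm_mul, norm_mul, hεn, one_mul, Complex.norm_real,
      Real.norm_of_nonneg hκ.le] at h3
    have h4 : ‖τ - τη‖ ≤ 0 := by nlinarith [norm_nonneg (τ - τη)]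
    exact sub_eq_zero.mp (norm_le_zero_iff.mp h4)
  · intro σ hσ
    have h3 : DifferentiableAt ℂ h σ := hh1.differentiableAt (isOpen_ball.mem_nhds (hmem σ hσ))
    exact h3.differentiableWithinAt
  · intro σ hσ
    obtain ⟨h3, h4⟩ := hh3 σ (hmem σ hσ)
    refine ⟨?_, ?_⟩
    · have h5 := hh6 σ (hmem σ hσ) 0 h0mem
      rw [hh2, sub_zero] at h5
      have h6 : c * ‖h σ - τη‖ ≤ ‖σ‖ + c / 2 * ‖h σ - τη‖ := by
        have h7 : ‖(c : ℂ) * (h σ - τη)‖ = c * ‖h σ - τη‖ := by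
          rw [norm_mul, Complex.norm_real, Real.norm_of_nonneg hc0.le]
        rw [← h7]
        have : (c : ℂ) * (h σ - τη) = σ - (σ - c * (h σ - τη)) := by ring
        calc ‖(c : ℂ) * (h σ - τη)‖ = ‖σ - (σ - c * (h σ - τη))‖ := by rw [← this]
          _ ≤ ‖σ‖ + ‖σ - c * (h σ - τη)‖ := norm_sub_le _ _
          _ ≤ _ := by linarith
      have h7 := hrad σ hσ
      have h8 : ‖h σ - τη‖ < R / 4 := by
        have h9 : c * ‖h σ - τη‖ < c * (R / 4) := by nlinarith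
        exact lt_of_mul_lt_mul_left h9 hc0.le
      rw [mem_ball, dist_eq_norm]
      have h9 : ‖(τη : ℂ) - v‖ = |τη - v| := by
        rw [← Complex.ofReal_sub, Complex.norm_real, Real.norm_eq_abs]
      calc ‖h σ - v‖ = ‖(h σ - τη) + (τη - v)‖ := by ring_nf
        _ ≤ ‖h σ - τη‖ + ‖(τη : ℂ) - v‖ := norm_add_le _ _
        _ < R / 2 := by rw [h9]; linarith
    · have h5 : (ε : ℂ) * f (h σ) = ε * f τη - σ ^ 2 := h4
      rw [htη] at h5
      have h6 : f (h σ) = ε * (ε * f (h σ)) := by rw [← mul_assoc, hεc, one_mul]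
      show f (h σ) = _
      rw [h6, h5]
      linear_combination (tη : ℂ) * hεc
  · intro σ hσ τ hτ hφτ
    have hτ2 : τ ∈ ball (τη : ℂ) (2 * R) := by
      refine (ball_subset_ball' ?_) hτ
      rw [dist_eq_norm, ← Complex.ofReal_sub, Complex.norm_real, Real.norm_eq_abs, abs_sub_comm]
      linarith
    refine hh4 σ (hmem σ hσ) τ hτ2 ?_
    show (ε : ℂ) * f τ = ε * f τη - σ ^ 2
    have h5 : f τ = tη - ε * σ ^ 2 := hφτ
    rw [h5, htη]
    linear_combination (-σ ^ 2) * hεc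
  · intro σ hσ
    exact hh5 σ (hmem σ hσ)
  · intro σ σ' hσ hσ'
    exact hh6 σ (hmem σ hσ) σ' (hmem σ' hσ')

end Pool.Agent.QC.S5
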