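import Pool.Agent.QC.S5.Curve
import Pool.Agent.QC.S5.Family

/-!
# MP_7c50a9_lc, section 5.1: positions of the critical points of `x_n` near an event

`event_positions`: near a nondegenerate event the solutions `(x', τ)` of `g = 0`, `d_j g = 0` are
exactly `(X (h σ), h σ)` with `σ ^ 2 = ε (tη - t)`.
-/

namespace Pool.Agent.QC.S5

open Set Metric Filter Topology Complex ComplexConjugate
open scoped ContDiff

variable {n : ℕ}

/-- `κ` is the curvature of the discriminant curve at the event: `φ'' = -κ`. -/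
def IsKap (g : Dm n → ℂ) (u : Dm n) (κ : ℂ) : Prop :=
  ∃ X' : Fin n → ℂ, fderiv ℂ (grd g) u ((1, 0), (X', 0)) = 0 ∧
    fderiv ℂ (fun p => fderiv ℂ g p dτ) u ((1, 0), (X', 0)) = κ * fderiv ℂ g u dT

theorem split_dir (X' : Fin n → ℂ) (s : ℂ) :
    (((1, 0), (X', s)) : Dm n) = dτ + (0, (X', 0)) + s • dT := by
  refine Prod.ext (Prod.ext ?_ ?_) (Prod.ext ?_ ?_) <;> simp [dτ, dT]

theorem contDiff_fderiv_dir {g : Dm n → ℂ} (hg : ContDiff ℂ ω g) (w : Dm n) :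
    ContDiff ℂ ω (fun p => fderiv ℂ g p w) := by
  have h1 : ContDiff ℂ ω (fderiv ℂ g) := hg.fderiv_right (m := ω) (by simp)
  exact h1.clm_apply contDiff_const

/-- First derivative of the curve. -/
theorem curve_D1 {g : Dm n → ℂ} (hg : ContDiff ℂ ω g) {ψ : ℂ × ℂ → (Fin n → ℂ) × ℂ} {q : ℂ × ℂ}
    (hψ : DifferentiableAt ℂ ψ q) (h0 : ∀ᶠ q in 𝓝 q, g (q, ψ q) = 0)
    (h1 : grd g (q, ψ q) = 0) (h2 : fderiv ℂ g (q, ψ q) dT ≠ 0) :
    D1 (fun q => (ψ q).2) q = -(fderiv ℂ g (q, ψ q) dτ) / fderiv ℂ g (q, ψ q) dT := by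
  have hΓ : HasFDerivAt (fun q : ℂ × ℂ => ((q, ψ q) : Dm n))
      ((ContinuousLinearMap.id ℂ (ℂ × ℂ)).prod (fderiv ℂ ψ q)) q :=
    (hasFDerivAt_id q).prodMk hψ.hasFDerivAt
  have hgd : HasFDerivAt g (fderiv ℂ g (q, ψ q)) (q, ψ q) :=
    ((hg.differentiable (by simp)) _).hasFDerivAt
  have h3 := hgd.comp q hΓ
  have h4 : HasFDerivAt (g ∘ fun q : ℂ × ℂ => ((q, ψ q) : Dm n)) (0 : ℂ × ℂ →L[ℂ] ℂ) q := by
    refine (hasFDerivAt_const (0 : ℂ) q).congr_of_eventuallyEq ?_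
    filter_upwards [h0] with x hx
    exact hx
  have h5 := congrArg (fun L : ℂ × ℂ →L[ℂ] ℂ => L (1, 0)) (h3.unique h4)
  have h6 : fderiv ℂ g (q, ψ q) ((1, 0), fderiv ℂ ψ q (1, 0)) = 0 := h5
  have h7 : (((1, 0), fderiv ℂ ψ q (1, 0)) : Dm n) =
      ((1, 0), ((fderiv ℂ ψ q (1, 0)).1, (fderiv ℂ ψ q (1, 0)).2)) := rfl
  rw [h7, split_dir, map_add, map_add, fderiv_inr_x h1, add_zero, map_smul, smul_eq_mul] at h6
  have h8 : D1 (fun q => (ψ q).2) q = (fderiv ℂ ψ q (1, 0)).2 := by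
    unfold D1
    have : HasFDerivAt (fun q => (ψ q).2)
        ((ContinuousLinearMap.snd ℂ (Fin n → ℂ) ℂ).comp (fderiv ℂ ψ q)) q :=
      (ContinuousLinearMap.snd ℂ (Fin n → ℂ) ℂ).hasFDerivAt.comp q hψ.hasFDerivAt
    rw [this.fderiv]
    rfl
  rw [h8, eq_div_iff h2]
  linear_combination h6

/-- Second derivative of the curve at the event. -/
theorem curve_D2 {g : Dm n → ℂ} (hg : ContDiff ℂ ω g) {u : Dm n} (h : NDEvent g u) {κ : ℂ}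
    (hκ : IsKap g u κ) {ψ : ℂ × ℂ → (Fin n → ℂ) × ℂ} (hc : ContDiffAt ℂ ω ψ u.1)
    (hu : ψ u.1 = u.2) (hψ : ∀ᶠ p in 𝓝 u, (g p = 0 ∧ grd g p = 0) ↔ ψ p.1 = p.2) :
    D1 (fun q => (ψ q).2) u.1 = 0 ∧ D1 (D1 (fun q => (ψ q).2)) u.1 = -κ := by
  obtain ⟨X', hX1, hX2⟩ := hκ
  have hΓu : (u.1, ψ u.1) = u := by rw [hu]
  have hΓt : Tendsto (fun q : ℂ × ℂ => ((q, ψ q) : Dm n)) (𝓝 u.1) (𝓝 u) := by
    have h3 : ContinuousAt (fun q : ℂ × ℂ => ((q, ψ q) : Dm n)) u.1 :=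
      continuousAt_id.prodMk hc.continuousAt
    have h4 : Tendsto (fun q : ℂ × ℂ => ((q, ψ q) : Dm n)) (𝓝 u.1) (𝓝 (u.1, ψ u.1)) := h3
    rwa [hΓu] at h4
  have hsol : ∀ᶠ q in 𝓝 u.1, g (q, ψ q) = 0 ∧ grd g (q, ψ q) = 0 := by
    filter_upwards [hΓt.eventually hψ] with q hq
    exact hq.mpr rfl
  have hdiff : ∀ᶠ q in 𝓝 u.1, DifferentiableAt ℂ ψ q := by
    filter_upwards [hc.eventually (by simp)] with q hq
    exact hq.differentiableAt (by simp)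
  have hBne : ∀ᶠ q in 𝓝 u.1, fderiv ℂ g (q, ψ q) dT ≠ 0 := by
    have : ContinuousAt (fun p => fderiv ℂ g p dT) u :=
      (contDiff_fderiv_dir hg dT).continuous.continuousAt
    exact hΓt.eventually (this.eventually_ne h.dTne)
  have hD1 : ∀ᶠ q in 𝓝 u.1, D1 (fun q => (ψ q).2) q =
      -(fderiv ℂ g (q, ψ q) dτ) / fderiv ℂ g (q, ψ q) dT := by
    filter_upwards [hdiff, hsol, hBne, hsol.eventually_nhds] with q a b c d
    exact curve_D1 hg a (d.mono fun _ h => h.1) b.2 c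
  have hbase : D1 (fun q => (ψ q).2) u.1 = 0 := by
    rw [hD1.self_of_nhds, hΓu, h.dτ0]
    simp
  refine ⟨hbase, ?_⟩
  -- derivatives at the base
  have hψd : DifferentiableAt ℂ ψ u.1 := hdiff.self_of_nhds
  have hΓ : HasFDerivAt (fun q : ℂ × ℂ => ((q, ψ q) : Dm n))
      ((ContinuousLinearMap.id ℂ (ℂ × ℂ)).prod (fderiv ℂ ψ u.1)) u.1 :=
    (hasFDerivAt_id u.1).prodMk hψd.hasFDerivAt
  have hs : (fderiv ℂ ψ u.1 (1, 0)).2 = 0 := by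
    have h8 : D1 (fun q => (ψ q).2) u.1 = (fderiv ℂ ψ u.1 (1, 0)).2 := by
      unfold D1
      have : HasFDerivAt (fun q => (ψ q).2)
          ((ContinuousLinearMap.snd ℂ (Fin n → ℂ) ℂ).comp (fderiv ℂ ψ u.1)) u.1 :=
        (ContinuousLinearMap.snd ℂ (Fin n → ℂ) ℂ).hasFDerivAt.comp u.1 hψd.hasFDerivAt
      rw [this.fderiv]
      rfl
    rw [← h8, hbase]
  have hdir : (((1, 0), fderiv ℂ ψ u.1 (1, 0)) : Dm n) =
      ((1, 0), ((fderiv ℂ ψ u.1 (1, 0)).1, 0)) :=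
    Prod.ext rfl (Prod.ext rfl hs)
  -- the gradient along the curve
  have hG : fderiv ℂ (grd g) u ((1, 0), ((fderiv ℂ ψ u.1 (1, 0)).1, 0)) = 0 := by
    have h3 : HasFDerivAt (grd g) (fderiv ℂ (grd g) (u.1, ψ u.1)) (u.1, ψ u.1) :=
      (((contDiff_grd hg).differentiable (by simp)) _).hasFDerivAt
    have h4 := h3.comp u.1 hΓ
    have h5 : HasFDerivAt (grd g ∘ fun q : ℂ × ℂ => ((q, ψ q) : Dm n))
        (0 : ℂ × ℂ →L[ℂ] (Fin n → ℂ)) u.1 := by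
      refine (hasFDerivAt_const (0 : Fin n → ℂ) u.1).congr_of_eventuallyEq ?_
      filter_upwards [hsol] with x hx
      exact hx.2
    have h6 := congrArg (fun L : ℂ × ℂ →L[ℂ] (Fin n → ℂ) => L (1, 0)) (h4.unique h5)
    have h7 : fderiv ℂ (grd g) (u.1, ψ u.1) ((1, 0), fderiv ℂ ψ u.1 (1, 0)) = 0 := h6
    rwa [hΓu, hdir] at h7
  have hXX : X' = (fderiv ℂ ψ u.1 (1, 0)).1 := by
    have h3 : fderiv ℂ (grd g) u (0, (X' - (fderiv ℂ ψ u.1 (1, 0)).1, 0)) = 0 := by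
      have h4 : ((0, (X' - (fderiv ℂ ψ u.1 (1, 0)).1, 0)) : Dm n) =
          ((1, 0), (X', 0)) - ((1, 0), ((fderiv ℂ ψ u.1 (1, 0)).1, 0)) := by
        refine Prod.ext (Prod.ext ?_ ?_) (Prod.ext ?_ ?_) <;> simp
      rw [h4, map_sub, hX1, hG, sub_zero]
    exact sub_eq_zero.mp (h.hess _ h3)
  -- numerator and denominator along the curve
  set A : Dm n → ℂ := fun p => fderiv ℂ g p dτ with hA
  set B : Dm n → ℂ := fun p => fderiv ℂ g p dT with hB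
  have hAd : HasFDerivAt A (fderiv ℂ A (u.1, ψ u.1)) (u.1, ψ u.1) :=
    (((contDiff_fderiv_dir hg dτ).differentiable (by simp)) _).hasFDerivAt
  have hBd : HasFDerivAt B (fderiv ℂ B (u.1, ψ u.1)) (u.1, ψ u.1) :=
    (((contDiff_fderiv_dir hg dT).differentiable (by simp)) _).hasFDerivAt
  have hline : HasDerivAt (fun z : ℂ => (((z, u.1.2)) : ℂ × ℂ)) (1, 0) u.1.1 :=
    (hasDerivAt_id u.1.1).prodMk (hasDerivAt_const u.1.1 u.1.2)
  have hAl : HasDerivAt (fun z : ℂ => A ((z, u.1.2), ψ (z, u.1.2)))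
      (fderiv ℂ A u ((1, 0), (X', 0))) u.1.1 := by
    have h3 := (hAd.comp u.1 hΓ).comp_hasDerivAt u.1.1 hline
    refine h3.congr_deriv ?_
    show fderiv ℂ A (u.1, ψ u.1) ((1, 0), fderiv ℂ ψ u.1 (1, 0)) = _
    rw [hΓu, hdir, ← hXX]
  have hBl : HasDerivAt (fun z : ℂ => B ((z, u.1.2), ψ (z, u.1.2)))
      (fderiv ℂ B u ((1, 0), (X', 0))) u.1.1 := by
    have h3 := (hBd.comp u.1 hΓ).comp_hasDerivAt u.1.1 hline
    refine h3.congr_deriv ?_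
    show fderiv ℂ B (u.1, ψ u.1) ((1, 0), fderiv ℂ ψ u.1 (1, 0)) = _
    rw [hΓu, hdir, ← hXX]
  have hB0 : B ((u.1.1, u.1.2), ψ (u.1.1, u.1.2)) ≠ 0 := by
    have : (((u.1.1, u.1.2), ψ (u.1.1, u.1.2)) : Dm n) = u := hΓu
    rw [this]
    exact h.dTne
  have hA0 : A ((u.1.1, u.1.2), ψ (u.1.1, u.1.2)) = 0 := by
    have : (((u.1.1, u.1.2), ψ (u.1.1, u.1.2)) : Dm n) = u := hΓu
    rw [this]
    exact h.dτ0
  have hquot := (hAl.neg).div hBl hB0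
  have hslice : HasDerivAt (fun z : ℂ => D1 (fun q => (ψ q).2) (z, u.1.2))
      (D1 (D1 (fun q => (ψ q).2)) u.1) u.1.1 := by
    have h3 : DifferentiableAt ℂ (D1 (fun q => (ψ q).2)) (u.1.1, u.1.2) :=
      (contDiffAt_D1 (hc.snd)).differentiableAt (by simp)
    exact hasDerivAt_slice h3
  have heq : (fun z : ℂ => D1 (fun q => (ψ q).2) (z, u.1.2)) =ᶠ[𝓝 u.1.1]
      fun z => -A ((z, u.1.2), ψ (z, u.1.2)) / B ((z, u.1.2), ψ (z, u.1.2)) := by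
    have h3 : Tendsto (fun z : ℂ => ((z, u.1.2) : ℂ × ℂ)) (𝓝 u.1.1) (𝓝 u.1) :=
      hline.continuousAt.tendsto
    filter_upwards [h3.eventually hD1] with z hz
    exact hz
  have h3 := hslice.unique (hquot.congr_of_eventuallyEq heq)
  rw [h3]
  simp only [Pi.neg_apply]
  rw [hA0, hX2]
  have hBu : B ((u.1.1, u.1.2), ψ (u.1.1, u.1.2)) = fderiv ℂ g u dT := by
    have : (((u.1.1, u.1.2), ψ (u.1.1, u.1.2)) : Dm n) = u := hΓu
    rw [this]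
  rw [hBu]
  have := h.dTne
  field_simp
  simp

/-- Nondegeneracy of the partial Hessian is an open condition. -/
theorem hess_eventually {g : Dm n → ℂ} (hg : ContDiff ℂ ω g) {u : Dm n}
    (h : ∀ e : Fin n → ℂ, fderiv ℂ (grd g) u (0, (e, 0)) = 0 → e = 0) :
    ∀ᶠ p in 𝓝 u, ∀ e : Fin n → ℂ, fderiv ℂ (grd g) p (0, (e, 0)) = 0 → e = 0 := by
  let J : (Fin n → ℂ) →L[ℂ] Dm n :=
    (ContinuousLinearMap.inr ℂ (ℂ × ℂ) ((Fin n → ℂ) × ℂ)).comp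
      (ContinuousLinearMap.inl ℂ (Fin n → ℂ) ℂ)
  have hJ : ∀ e, J e = (0, (e, 0)) := fun e => rfl
  have hcont : Continuous fun p => ((fderiv ℂ (grd g) p).comp J).det := by
    have h1 : Continuous fun p => (fderiv ℂ (grd g) p).comp J :=
      (((contDiff_grd hg).continuous_fderiv (by simp)).clm_comp continuous_const)
    exact ContinuousLinearMap.continuous_det.comp h1
  have hdet : ∀ p, (∀ e : Fin n → ℂ, fderiv ℂ (grd g) p (0, (e, 0)) = 0 → e = 0) ↔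
      ((fderiv ℂ (grd g) p).comp J).det ≠ 0 := by
    intro p
    have h1 : ((fderiv ℂ (grd g) p).comp J).det ≠ 0 ↔
        LinearMap.ker ((fderiv ℂ (grd g) p).comp J).toLinearMap = ⊥ := by
      rw [ContinuousLinearMap.det, ← isUnit_iff_ne_zero, ← LinearMap.isUnit_iff_isUnit_det,
        LinearMap.isUnit_iff_ker_eq_bot]
    rw [h1, LinearMap.ker_eq_bot']
    exact Iff.rfl
  have h0 : ((fderiv ℂ (grd g) u).comp J).det ≠ 0 := (hdet u).mp h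
  filter_upwards [hcont.continuousAt.eventually_ne h0] with p hp
  exact (hdet p).mpr hp

/-- **Event geometry.** -/
theorem event_positions {g : Dm n → ℂ} (hg : ContDiff ℂ ω g)
    (hgc : ∀ p, g (cj p) = conj (g p)) {u : Dm n} {v t₀ : ℝ} (hu : cj u = u)
    (hv : u.1 = ((v : ℂ), 0)) (ht : u.2.2 = (t₀ : ℂ)) (h : NDEvent g u) {κ ε : ℝ}
    (hε : ε = 1 ∨ ε = -1) (hκ : 0 < κ) (hkap : IsKap g u ((ε : ℂ) * κ))
    {V : Set (Fin n → ℂ)} (hV : V ∈ 𝓝 u.2.1) :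
    ∃ N ∈ 𝓝 u.2.1, IsOpen N ∧ N ⊆ V ∧ ∃ R₀ > 0, ∀ R ∈ Ioc 0 R₀, ∃ ρ₀ > 0, ∀ ρ ∈ Ioc 0 ρ₀,
      ∃ η₀ > 0, ∀ η : ℝ, |η| < η₀ →
      ∃ (τη tη : ℝ) (h : ℂ → ℂ) (X : ℂ → Fin n → ℂ), |τη - v| < R / 4 ∧ |tη - t₀| < ρ / 4 ∧
        h 0 = τη ∧ DifferentiableOn ℂ h {σ | ‖σ‖ ^ 2 < 2 * ρ} ∧
        (∀ σ : ℂ, ‖σ‖ ^ 2 < 2 * ρ → h σ ∈ ball (v : ℂ) (R / 2)) ∧
        (∀ τ ∈ ball (v : ℂ) R, X τ ∈ N) ∧ ContinuousOn X (ball (v : ℂ) R) ∧
        (∀ t ∈ ball (t₀ : ℂ) ρ, ∀ x' ∈ N, ∀ τ ∈ ball (v : ℂ) R,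
          (g ((τ, η), (x', t)) = 0 ∧ grd g ((τ, η), (x', t)) = 0) ↔
            x' = X τ ∧ ∃ σ : ℂ, σ ^ 2 = ε * (tη - t) ∧ τ = h σ) ∧
        (∀ t ∈ ball (t₀ : ℂ) ρ, ∀ x' ∈ N, ∀ τ ∈ ball (v : ℂ) R,
          (g ((τ, η), (x', t)) = 0 ∧ grd g ((τ, η), (x', t)) = 0 ∧
            fderiv ℂ g ((τ, η), (x', t)) dτ = 0) ↔ x' = X τη ∧ τ = τη ∧ t = tη) ∧
        (∀ t ∈ ball (t₀ : ℂ) ρ, ∀ x' ∈ N, ∀ τ ∈ ball (v : ℂ) R, ∀ e : Fin n → ℂ,
          fderiv ℂ (grd g) ((τ, η), (x', t)) (0, (e, 0)) = 0 → e = 0) ∧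
        (∀ τ ∈ ball (v : ℂ) R, X (conj τ) = fun j => conj (X τ j)) ∧
        (∀ σ : ℂ, ‖σ‖ ^ 2 < 2 * ρ → h (conj σ) = conj (h σ)) ∧
        (∀ σ σ' : ℂ, ‖σ‖ ^ 2 < 2 * ρ → ‖σ'‖ ^ 2 < 2 * ρ →
          ‖(σ - σ') - Real.sqrt (κ / 2) * (h σ - h σ')‖ ≤
            Real.sqrt (κ / 2) / 2 * ‖h σ - h σ'‖) := by
  obtain ⟨ψ, hψc, hψu, hψ⟩ := exists_curve hg h
  obtain ⟨hD, hDD⟩ := curve_D2 hg h hkap hψc hψu hψ
  have hconj := curve_conj (hg.differentiable (by simp)) hgc hu hψc.continuousAt hψu hψ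
  have hεε : (ε : ℂ) * ε = 1 := by
    rcases hε with rfl | rfl <;> norm_num
  -- a product neighbourhood
  have hB : ∀ᶠ p in 𝓝 u, fderiv ℂ g p dT ≠ 0 :=
    (contDiff_fderiv_dir hg dT).continuous.continuousAt.eventually_ne h.dTne
  obtain ⟨r, hr, hrb⟩ := Metric.eventually_nhds_iff_ball.mp
    ((hψ.and hB).and (hess_eventually hg h.hess))
  have hprod : ∀ (q : ℂ × ℂ) (x' : Fin n → ℂ) (t : ℂ), dist q u.1 < r → dist x' u.2.1 < r →
      dist t t₀ < r → ((q, (x', t)) : Dm n) ∈ ball u r := by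
    intro q x' t h1 h2 h3
    have h4 : dist ((x', t) : (Fin n → ℂ) × ℂ) u.2 < r := by
      rw [Prod.dist_eq, max_lt_iff]
      exact ⟨h2, by rw [ht]; exact h3⟩
    rw [mem_ball, Prod.dist_eq, max_lt_iff]
    exact ⟨h1, h4⟩
  set N : Set (Fin n → ℂ) := ball u.2.1 r ∩ interior V with hN
  have hNo : IsOpen N := isOpen_ball.inter isOpen_interior
  have hNm : N ∈ 𝓝 u.2.1 := inter_mem (ball_mem_nhds _ hr) (interior_mem_nhds.mpr hV)
  have hNV : N ⊆ V := inter_subset_right.trans interior_subset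
  -- `ψ` near the base
  have hψev : ∀ᶠ q in 𝓝 u.1, ContDiffAt ℂ ω ψ q ∧ (ψ q).1 ∈ N ∧ dist (ψ q).2 t₀ < r ∧
      ψ (conj q.1, conj q.2) = (fun j => conj ((ψ q).1 j), conj (ψ q).2) ∧ dist q u.1 < r := by
    have e1 := hψc.eventually (by simp)
    have e2 : ∀ᶠ q in 𝓝 u.1, (ψ q).1 ∈ N := by
      have a : ContinuousAt (fun q => (ψ q).1) u.1 := continuous_fst.continuousAt.comp
        hψc.continuousAt
      have b : N ∈ 𝓝 ((fun q => (ψ q).1) u.1) := by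
        show N ∈ 𝓝 (ψ u.1).1
        rw [hψu]; exact hNm
      exact a.eventually b
    have e3 : ∀ᶠ q in 𝓝 u.1, dist (ψ q).2 t₀ < r := by
      have a : ContinuousAt (fun q => (ψ q).2) u.1 := continuous_snd.continuousAt.comp
        hψc.continuousAt
      have b : ball (t₀ : ℂ) r ∈ 𝓝 ((fun q => (ψ q).2) u.1) := by
        show ball (t₀ : ℂ) r ∈ 𝓝 (ψ u.1).2
        rw [hψu, ht]; exact ball_mem_nhds _ hr
      exact a.eventually b
    filter_upwards [e1, e2, e3, hconj, ball_mem_nhds u.1 hr] with q a b c d e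
    exact ⟨a, b, c, d, e⟩
  obtain ⟨r', hr', hrb'⟩ := Metric.eventually_nhds_iff_ball.mp hψev
  have hqb : ∀ τ η : ℂ, τ ∈ ball (v : ℂ) r' → ‖η‖ < r' → ((τ, η) : ℂ × ℂ) ∈ ball u.1 r' := by
    intro τ η h1 h2
    rw [hv, mem_ball, Prod.dist_eq, max_lt_iff]
    exact ⟨h1, by simpa using h2⟩
  -- the Morse family
  set φ : ℂ × ℂ → ℂ := fun q => (ψ q).2 with hφ
  have hφc : ContDiffAt ℂ ω φ ((v : ℂ), 0) := by rw [← hv]; exact hψc.snd
  obtain ⟨R₀, hR₀, hmf⟩ := morse_family (φ := φ) (v := v) (t₀ := t₀) (κ := κ) (ε := ε) hφc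
    (by show (ψ ((v : ℂ), 0)).2 = _; rw [← hv, hψu, ht]) (by rw [← hv]; exact hD)
    (by rw [← hv, hDD]) hε hκ (by
      rw [← hv]
      filter_upwards [hconj] with q hq
      show (ψ (conj q.1, conj q.2)).2 = conj (ψ q).2
      rw [hq])
  refine ⟨N, hNm, hNo, hNV, min R₀ r', lt_min hR₀ hr', fun R hR => ?_⟩
  obtain ⟨ρ₀, hρ₀, hmf⟩ := hmf R ⟨hR.1, hR.2.trans (min_le_left _ _)⟩
  have hRr' : R ≤ r' := hR.2.trans (min_le_right _ _)
  refine ⟨min ρ₀ r, lt_min hρ₀ hr, fun ρ hρ => ?_⟩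
  obtain ⟨η₀, hη₀, hmf⟩ := hmf ρ ⟨hρ.1, hρ.2.trans (min_le_left _ _)⟩
  have hρr : ρ ≤ r := hρ.2.trans (min_le_right _ _)
  refine ⟨min η₀ r', lt_min hη₀ hr', fun η hη => ?_⟩
  obtain ⟨τη, tη, hh, m1, m2, m3, m4, m5, m6, m7, m8, m9, m10, m11⟩ :=
    hmf η (hη.trans_le (min_le_left _ _))
  have hηr' : ‖(η : ℂ)‖ < r' := by
    rw [Complex.norm_real]; exact hη.trans_le (min_le_right _ _)
  have hball : ∀ τ ∈ ball (v : ℂ) R, ((τ, (η : ℂ)) : ℂ × ℂ) ∈ ball u.1 r' := fun τ hτ =>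
    hqb τ η (ball_subset_ball hRr' hτ) hηr'
  -- equation
  have hiff : ∀ t ∈ ball (t₀ : ℂ) ρ, ∀ x' ∈ N, ∀ τ ∈ ball (v : ℂ) R,
      (g ((τ, η), (x', t)) = 0 ∧ grd g ((τ, η), (x', t)) = 0) ↔ ψ (τ, η) = (x', t) := by
    intro t htt x' hx' τ hτ
    have hp := hprod (τ, (η : ℂ)) x' t (hrb' _ (hball τ hτ)).2.2.2.2 hx'.1
      (lt_of_lt_of_le htt hρr)
    exact (hrb _ hp).1.1
  have hcurve : ∀ q ∈ ball u.1 r', g (q, ψ q) = 0 ∧ grd g (q, ψ q) = 0 := by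
    intro q hq
    obtain ⟨-, b, c, -, e⟩ := hrb' q hq
    have hp := hprod q (ψ q).1 (ψ q).2 e b.1 c
    exact (hrb _ hp).1.1.mpr rfl
  have hcurveB : ∀ q ∈ ball u.1 r', fderiv ℂ g (q, ψ q) dT ≠ 0 := by
    intro q hq
    obtain ⟨-, b, c, -, e⟩ := hrb' q hq
    have hp := hprod q (ψ q).1 (ψ q).2 e b.1 c
    exact (hrb _ hp).1.2
  have hD1 : ∀ q ∈ ball u.1 r', D1 φ q = -(fderiv ℂ g (q, ψ q) dτ) / fderiv ℂ g (q, ψ q) dT := by
    intro q hq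
    refine curve_D1 hg ((hrb' q hq).1.differentiableAt (by simp)) ?_ (hcurve q hq).2
      (hcurveB q hq)
    filter_upwards [isOpen_ball.mem_nhds hq] with x hx
    exact (hcurve x hx).1
  have hτηR : (τη : ℂ) ∈ ball (v : ℂ) R := by
    rw [mem_ball, dist_eq_norm, ← Complex.ofReal_sub, Complex.norm_real, Real.norm_eq_abs]
    linarith [hR.1]
  have htηρ : ∀ t ∈ ball (t₀ : ℂ) ρ, ‖(tη : ℂ) - t‖ < 2 * ρ := by
    intro t htt
    have h1 : ‖(tη : ℂ) - t₀‖ < ρ / 4 := by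
      rw [← Complex.ofReal_sub, Complex.norm_real, Real.norm_eq_abs]; exact m2
    have h2 : ‖(t₀ : ℂ) - t‖ < ρ := by
      rw [← dist_eq_norm, dist_comm]; exact htt
    calc ‖(tη : ℂ) - t‖ = ‖((tη : ℂ) - t₀) + (t₀ - t)‖ := by ring_nf
      _ ≤ ‖(tη : ℂ) - t₀‖ + ‖(t₀ : ℂ) - t‖ := norm_add_le _ _
      _ < 2 * ρ := by linarith [hρ.1]
  refine ⟨τη, tη, hh, fun τ => (ψ (τ, η)).1, m1, m2, m4, m7, fun σ hσ => (m8 σ hσ).1, ?_, ?_,
    ?_, ?_, ?_, ?_, m10, m11⟩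
  · exact fun τ hτ => (hrb' _ (hball τ hτ)).2.1
  · intro τ hτ
    have h1 : ContinuousAt ψ (τ, (η : ℂ)) := (hrb' _ (hball τ hτ)).1.continuousAt
    have h2 : ContinuousAt (fun z : ℂ => ψ (z, (η : ℂ))) τ :=
      ContinuousAt.comp (f := fun z : ℂ => ((z, (η : ℂ)) : ℂ × ℂ)) (g := ψ) h1
        (continuousAt_id.prodMk continuousAt_const)
    exact (continuous_fst.continuousAt.comp h2).continuousWithinAt
  · intro t htt x' hx' τ hτ
    rw [hiff t htt x' hx' τ hτ]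
    constructor
    · intro h1
      have h2 : φ (τ, η) = t := congrArg Prod.snd h1
      refine ⟨(congrArg Prod.fst h1).symm, ?_⟩
      obtain ⟨σ, hσ⟩ : ∃ σ : ℂ, σ ^ 2 = ε * (tη - t) := by
        obtain ⟨z, hz⟩ := IsAlgClosed.exists_pow_nat_eq ((ε : ℂ) * (tη - t)) (n := 2) (by norm_num)
        exact ⟨z, hz⟩
      have hσn : ‖σ‖ ^ 2 < 2 * ρ := by
        rw [← norm_pow, hσ, norm_mul]
        have : ‖(ε : ℂ)‖ = 1 := by
          rcases hε with rfl | rfl <;> simp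
        rw [this, one_mul]
        exact htηρ t htt
      have h3 : φ (τ, η) = tη - ε * σ ^ 2 := by
        rw [h2, hσ]
        linear_combination (t - (tη : ℂ)) * (hεε.symm)
      rcases m9 σ hσn τ hτ h3 with h4 | h4
      · exact ⟨σ, hσ, h4⟩
      · exact ⟨-σ, by rw [neg_sq]; exact hσ, h4⟩
    · rintro ⟨h1, σ, hσ, hτσ⟩
      have hσn : ‖σ‖ ^ 2 < 2 * ρ := by
        rw [← norm_pow, hσ, norm_mul]
        have : ‖(ε : ℂ)‖ = 1 := by
          rcases hε with rfl | rfl <;> simp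
        rw [this, one_mul]
        exact htηρ t htt
      have h3 := (m8 σ hσn).2
      rw [← hτσ, hσ] at h3
      refine Prod.ext h1.symm ?_
      show φ (τ, η) = t
      rw [h3]
      linear_combination (t - (tη : ℂ)) * hεε
  · intro t htt x' hx' τ hτ
    constructor
    · rintro ⟨h1, h2, h3⟩
      have h4 := (hiff t htt x' hx' τ hτ).mp ⟨h1, h2⟩
      have h5 := hD1 _ (hball τ hτ)
      rw [h4, h3] at h5
      have h6 : D1 φ (τ, η) = 0 := by rw [h5]; simp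
      have h7 := m6 τ hτ h6
      refine ⟨?_, h7, ?_⟩
      · rw [← h7]; exact (congrArg Prod.fst h4).symm
      · have h8 : φ (τ, η) = t := congrArg Prod.snd h4
        rw [← h8, h7, m3]
    · rintro ⟨h1, h2, h3⟩
      have h4 : ψ ((τη : ℂ), (η : ℂ)) = (x', t) := by
        refine Prod.ext h1.symm ?_
        rw [h3]; exact m3
      subst h2
      have h5 := (hiff t htt x' hx' _ hτ).mpr h4
      refine ⟨h5.1, h5.2, ?_⟩
      have h6 := hD1 _ (hball _ hτ)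
      rw [m5, h4] at h6
      have h7 := hcurveB _ (hball _ hτ)
      rw [h4] at h7
      have h8 := h6.symm
      rw [div_eq_zero_iff] at h8
      rcases h8 with h8 | h8
      · exact neg_eq_zero.mp h8
      · exact absurd h8 h7
  · intro t htt x' hx' τ hτ e he
    have hp := hprod (τ, (η : ℂ)) x' t (hrb' _ (hball τ hτ)).2.2.2.2 hx'.1
      (lt_of_lt_of_le htt hρr)
    exact (hrb _ hp).2 e he
  · intro τ hτ
    have h1 := (hrb' _ (hball τ hτ)).2.2.2.1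
    simp only [Complex.conj_ofReal] at h1
    show (ψ (conj τ, (η : ℂ))).1 = fun j => conj ((ψ (τ, η)).1 j)
    rw [h1]

end Pool.Agent.QC.S5
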