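import Mathlib

/-!
# MP_7c50a9_lc, section 5.1: a quantitative holomorphic Morse lemma in one variable

`phi` holomorphic and real on reals near a real point `τ₀`, `phi' (τ₀) = 0` and `phi''` close to
`-κ < 0`.  Then `phi = phi τ₀ - σ ^ 2` is solved by `h σ` and `h (-σ)`, `h` holomorphic,
increasing on the reals and preserving the half planes.
-/

namespace Pool.Agent.QC.S5

open Set Metric Filter Topology Complex ComplexConjugate

/-- the principal square root near 1 -/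
theorem sqrt_near_one {w : ℂ} (hw : ‖w - 1‖ ≤ 1 / 4) :
    (w ^ (1 / 2 : ℂ)) ^ 2 = w ∧ ‖w ^ (1 / 2 : ℂ) - 1‖ ≤ 1 / 7 ∧ 0 < (w ^ (1 / 2 : ℂ)).re := by
  have hre : 3 / 4 ≤ w.re := by
    have h1 : |(w - 1).re| ≤ 1 / 4 := (Complex.abs_re_le_norm _).trans hw
    have h2 := (abs_le.mp h1).1
    simp only [sub_re, one_re] at h2
    linarith
  have hw0 : w ≠ 0 := by
    rintro rfl
    simp at hre
    linarith
  have hsq : (w ^ (1 / 2 : ℂ)) ^ 2 = w := by
    rw [← Complex.cpow_nat_mul]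
    simp
  have harg : |Complex.arg w| < Real.pi / 2 := Complex.abs_arg_lt_pi_div_two_iff.mpr
    (Or.inl (by linarith))
  have hrepos : 0 < (w ^ (1 / 2 : ℂ)).re := by
    rw [Complex.cpow_def_of_ne_zero hw0, Complex.exp_re]
    refine mul_pos (Real.exp_pos _) (Real.cos_pos_of_mem_Ioo ?_)
    have h3 : (Complex.log w * (1 / 2 : ℂ)).im = Complex.arg w / 2 := by
      have : (1 / 2 : ℂ) = ((1 / 2 : ℝ) : ℂ) := by push_cast; ring
      rw [this, Complex.im_mul_ofReal, Complex.log_im]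
      ring
    rw [h3]
    have := abs_lt.mp harg
    constructor <;> linarith [Real.pi_pos]
  set s := w ^ (1 / 2 : ℂ) with hs
  have hprod : (s - 1) * (s + 1) = w - 1 := by rw [← hsq]; ring
  have h1 : 1 ≤ ‖s + 1‖ := by
    have : |(s + 1).re| ≤ ‖s + 1‖ := Complex.abs_re_le_norm _
    have h2 := le_abs_self (s + 1).re
    simp only [add_re, one_re] at h2
    simp only [add_re, one_re] at this
    linarith
  have h2 : ‖s - 1‖ ≤ 1 / 4 := by
    have h3 : ‖s - 1‖ * ‖s + 1‖ ≤ 1 / 4 := by rw [← norm_mul, hprod]; exact hw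
    nlinarith [norm_nonneg (s - 1)]
  have h3 : 3 / 4 ≤ s.re := by
    have h1 : |(s - 1).re| ≤ 1 / 4 := (Complex.abs_re_le_norm _).trans h2
    have h2 := (abs_le.mp h1).1
    simp only [sub_re, one_re] at h2
    linarith
  have h4 : 7 / 4 ≤ ‖s + 1‖ := by
    have : |(s + 1).re| ≤ ‖s + 1‖ := Complex.abs_re_le_norm _
    have h2 := le_abs_self (s + 1).re
    simp only [add_re, one_re] at h2
    simp only [add_re, one_re] at this
    linarith
  have h5 : ‖s - 1‖ ≤ 1 / 7 := by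
    have h6 : ‖s - 1‖ * ‖s + 1‖ ≤ 1 / 4 := by rw [← norm_mul, hprod]; exact hw
    nlinarith [norm_nonneg (s - 1)]
  exact ⟨hsq, h5, hrepos⟩

/-- The quantitative Morse lemma. -/
theorem morse1 {φ : ℂ → ℂ} {τ₀ κ R : ℝ} (hκ : 0 < κ) (hR : 0 < R)
    (hd : DifferentiableOn ℂ φ (ball (τ₀ : ℂ) R)) (hcrit : deriv φ τ₀ = 0)
    (h2 : ∀ τ ∈ ball (τ₀ : ℂ) R, ‖deriv (deriv φ) τ + κ‖ ≤ κ / 8)
    (hconj : ∀ τ ∈ ball (τ₀ : ℂ) R, φ (conj τ) = conj (φ τ)) :
    ∃ h : ℂ → ℂ, DifferentiableOn ℂ h (ball 0 (Real.sqrt (κ / 2) * R / 4)) ∧ h 0 = τ₀ ∧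
      (∀ σ ∈ ball (0 : ℂ) (Real.sqrt (κ / 2) * R / 4), h σ ∈ ball (τ₀ : ℂ) R ∧
        φ (h σ) = φ τ₀ - σ ^ 2) ∧
      (∀ σ ∈ ball (0 : ℂ) (Real.sqrt (κ / 2) * R / 4), ∀ τ ∈ ball (τ₀ : ℂ) R,
        φ τ = φ τ₀ - σ ^ 2 → τ = h σ ∨ τ = h (-σ)) ∧
      (∀ σ ∈ ball (0 : ℂ) (Real.sqrt (κ / 2) * R / 4), h (conj σ) = conj (h σ)) ∧
      (∀ σ ∈ ball (0 : ℂ) (Real.sqrt (κ / 2) * R / 4),
        ∀ σ' ∈ ball (0 : ℂ) (Real.sqrt (κ / 2) * R / 4),
        ‖(σ - σ') - Real.sqrt (κ / 2) * (h σ - h σ')‖ ≤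
          Real.sqrt (κ / 2) / 2 * ‖h σ - h σ'‖) := by
  set B := ball (τ₀ : ℂ) R with hB
  set c := Real.sqrt (κ / 2) with hc
  have hc0 : 0 < c := Real.sqrt_pos.mpr (by linarith)
  have hcsq : c ^ 2 = κ / 2 := Real.sq_sqrt (by linarith)
  have hBo : IsOpen B := isOpen_ball
  have hτB : (τ₀ : ℂ) ∈ B := mem_ball_self hR
  have hBn : B ∈ 𝓝 (τ₀ : ℂ) := hBo.mem_nhds hτB
  have hconv : Convex ℝ B := convex_ball _ _
  have hd' : DifferentiableOn ℂ (deriv φ) B := hd.deriv hBo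
  -- first derivative
  have hD1 : ∀ τ ∈ B, ‖deriv φ τ + κ * (τ - τ₀)‖ ≤ κ / 8 * ‖τ - τ₀‖ := by
    intro τ hτ
    have := hconv.norm_image_sub_le_of_norm_hasDerivWithin_le
      (f := fun z => deriv φ z + κ * (z - τ₀)) (f' := fun z => deriv (deriv φ) z + κ)
      (C := κ / 8) (x := (τ₀ : ℂ)) (y := τ) (s := B) ?_ h2 hτB hτ
    · simpa [hcrit] using this
    · intro z hz
      have h3 : HasDerivAt (deriv φ) (deriv (deriv φ) z) z :=
        (hd'.differentiableAt (hBo.mem_nhds hz)).hasDerivAt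
      have h4 : HasDerivAt (fun z : ℂ => (κ : ℂ) * (z - τ₀)) κ z := by
        simpa using ((hasDerivAt_id z).sub_const (τ₀ : ℂ)).const_mul (κ : ℂ)
      exact (h3.add h4).hasDerivWithinAt
  -- second order
  have hD0 : ∀ τ ∈ B, ‖φ τ - φ τ₀ + κ / 2 * (τ - τ₀) ^ 2‖ ≤ κ / 8 * ‖τ - τ₀‖ ^ 2 := by
    intro τ hτ
    have hsub : closedBall (τ₀ : ℂ) ‖τ - τ₀‖ ⊆ B := by
      intro z hz
      have h3 : ‖τ - τ₀‖ < R := by simpa [hB, dist_eq_norm] using hτ
      rw [mem_closedBall, dist_eq_norm] at hz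
      rw [hB, mem_ball, dist_eq_norm]
      linarith
    have := (convex_closedBall (τ₀ : ℂ) ‖τ - τ₀‖).norm_image_sub_le_of_norm_hasDerivWithin_le
      (f := fun z => φ z + κ / 2 * (z - τ₀) ^ 2) (f' := fun z => deriv φ z + κ * (z - τ₀))
      (C := κ / 8 * ‖τ - τ₀‖) (x := (τ₀ : ℂ)) (y := τ) ?_ ?_ (by simp) (by simp [dist_eq_norm])
    · have h3 : φ τ - φ τ₀ + κ / 2 * (τ - τ₀) ^ 2 =
          φ τ + κ / 2 * (τ - τ₀) ^ 2 - (φ τ₀ + κ / 2 * ((τ₀ : ℂ) - τ₀) ^ 2) := by ring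
      rw [h3, pow_two (‖τ - τ₀‖), ← mul_assoc]
      exact this
    · intro z hz
      have h3 : HasDerivAt φ (deriv φ z) z :=
        (hd.differentiableAt (hBo.mem_nhds (hsub hz))).hasDerivAt
      have h4 : HasDerivAt (fun z : ℂ => (κ : ℂ) / 2 * (z - τ₀) ^ 2) (κ * (z - τ₀)) z := by
        have := (((hasDerivAt_id z).sub_const (τ₀ : ℂ)).pow 2).const_mul ((κ : ℂ) / 2)
        refine this.congr_deriv ?_
        simp only [id, Nat.cast_ofNat]
        ring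
      exact (h3.add h4).hasDerivWithinAt
    · intro z hz
      have h3 : ‖z - τ₀‖ ≤ ‖τ - τ₀‖ := by simpa [dist_eq_norm] using hz
      exact (hD1 z (hsub hz)).trans (by gcongr)
  -- the quotient
  set dd : ℂ → ℂ := dslope (dslope φ τ₀) τ₀ with hdd
  have hddd : DifferentiableOn ℂ dd B :=
    (Complex.differentiableOn_dslope hBn).mpr ((Complex.differentiableOn_dslope hBn).mpr hd)
  have hfac : ∀ τ, φ τ = φ τ₀ + (τ - τ₀) ^ 2 * dd τ := by
    intro τ
    have h3 : (τ - τ₀) • dslope φ (τ₀ : ℂ) τ = φ τ - φ τ₀ := sub_smul_dslope φ (τ₀ : ℂ) τ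
    have h4 : (τ - τ₀) • dd τ = dslope φ (τ₀ : ℂ) τ - dslope φ (τ₀ : ℂ) τ₀ :=
      sub_smul_dslope (dslope φ (τ₀ : ℂ)) (τ₀ : ℂ) τ
    rw [dslope_same, hcrit, sub_zero] at h4
    rw [← h4] at h3
    simp only [smul_eq_mul] at h3
    rw [pow_two, mul_assoc, h3]
    ring
  have hddb' : ∀ τ ∈ B, τ ≠ τ₀ → ‖dd τ + κ / 2‖ ≤ κ / 8 := by
    intro τ hτ hne
    have h3 := hD0 τ hτ
    have h4 : φ τ - φ τ₀ + κ / 2 * (τ - τ₀) ^ 2 = (τ - τ₀) ^ 2 * (dd τ + κ / 2) := by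
      rw [hfac τ]; ring
    rw [h4, norm_mul, norm_pow, mul_comm] at h3
    have h5 : 0 < ‖τ - τ₀‖ ^ 2 := by
      have : τ - τ₀ ≠ 0 := sub_ne_zero.mpr hne
      positivity
    exact le_of_mul_le_mul_right h3 h5
  have hddb : ∀ τ ∈ B, ‖dd τ + κ / 2‖ ≤ κ / 8 := by
    intro τ hτ
    rcases eq_or_ne τ (τ₀ : ℂ) with rfl | hne
    · have h3 : Tendsto (fun z => ‖dd z + κ / 2‖) (𝓝[≠] (τ₀ : ℂ)) (𝓝 ‖dd τ₀ + κ / 2‖) := by
        have : ContinuousAt dd τ₀ := (hddd.differentiableAt hBn).continuousAt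
        exact ((this.add continuousAt_const).norm).tendsto.mono_left nhdsWithin_le_nhds
      refine le_of_tendsto h3 ?_
      filter_upwards [self_mem_nhdsWithin, mem_nhdsWithin_of_mem_nhds hBn] with z hz hzB
      exact hddb' z hzB hz
    · exact hddb' τ hτ hne
  set G : ℂ → ℂ := fun τ => -dd τ / (κ / 2) with hG
  have hκc : (κ : ℂ) ≠ 0 := by exact_mod_cast hκ.ne'
  have hG1 : ∀ τ ∈ B, ‖G τ - 1‖ ≤ 1 / 4 := by
    intro τ hτ
    have h3 : G τ - 1 = -(dd τ + κ / 2) / (κ / 2) := by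
      simp only [hG]; field_simp; ring
    rw [h3, norm_div, norm_neg]
    have h4 : ‖(κ / 2 : ℂ)‖ = κ / 2 := by
      have : (κ / 2 : ℂ) = ((κ / 2 : ℝ) : ℂ) := by push_cast; ring
      rw [this, Complex.norm_real, Real.norm_of_nonneg (by linarith)]
    rw [h4, div_le_iff₀ (by linarith)]
    have := hddb τ hτ
    linarith
  have hGd : DifferentiableOn ℂ G B := (hddd.neg).div_const _
  set s : ℂ → ℂ := fun τ => (G τ) ^ (1 / 2 : ℂ) with hs
  have hs2 : ∀ τ ∈ B, s τ ^ 2 = G τ := fun τ hτ => (sqrt_near_one (hG1 τ hτ)).1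
  have hs1 : ∀ τ ∈ B, ‖s τ - 1‖ ≤ 1 / 7 := fun τ hτ => (sqrt_near_one (hG1 τ hτ)).2.1
  have hslit : ∀ τ ∈ B, G τ ∈ slitPlane := by
    intro τ hτ
    left
    have h3 : |(G τ - 1).re| ≤ 1 / 4 := (Complex.abs_re_le_norm _).trans (hG1 τ hτ)
    have h4 := (abs_le.mp h3).1
    simp only [sub_re, one_re] at h4
    linarith
  have hsd : DifferentiableOn ℂ s B := fun τ hτ =>
    (hGd τ hτ).cpow (differentiableWithinAt_const _) (hslit τ hτ)
  set ψ : ℂ → ℂ := fun τ => (τ - τ₀) * (c * s τ) with hψ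
  have hψd : DifferentiableOn ℂ ψ B :=
    (differentiableOn_id.sub_const _).mul ((differentiableOn_const _).mul hsd)
  have hψ2 : ∀ τ ∈ B, ψ τ ^ 2 = φ τ₀ - φ τ := by
    intro τ hτ
    have hcc : (c : ℂ) ^ 2 = κ / 2 := by
      have : ((c ^ 2 : ℝ) : ℂ) = ((κ / 2 : ℝ) : ℂ) := by rw [hcsq]
      push_cast at this
      exact this
    have : ψ τ ^ 2 = (τ - τ₀) ^ 2 * ((c : ℂ) ^ 2 * s τ ^ 2) := by simp only [hψ]; ring
    rw [this, hs2 τ hτ, hcc, hfac τ]
    simp only [hG]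
    field_simp
    ring
  have hψ0 : ψ τ₀ = 0 := by simp [hψ]
  have hsne : ∀ τ ∈ B, 6 / 7 ≤ ‖s τ‖ := by
    intro τ hτ
    have h3 : (1 : ℝ) ≤ ‖s τ‖ + ‖s τ - 1‖ := by
      have := norm_sub_le (s τ) (s τ - 1)
      simpa using this
    have := hs1 τ hτ
    linarith
  -- derivative bound
  have hψ' : ∀ τ ∈ B, ‖deriv ψ τ - c‖ ≤ c / 2 := by
    intro τ hτ
    have hψa : HasDerivAt ψ (deriv ψ τ) τ :=
      (hψd.differentiableAt (hBo.mem_nhds hτ)).hasDerivAt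
    rcases eq_or_ne τ (τ₀ : ℂ) with rfl | hne
    · have h3 : HasDerivAt ψ (1 * (c * s τ₀) + ((τ₀ : ℂ) - τ₀) * (c * deriv s τ₀)) (τ₀ : ℂ) := by
        have h4 : HasDerivAt s (deriv s τ₀) (τ₀ : ℂ) :=
          (hsd.differentiableAt hBn).hasDerivAt
        exact ((hasDerivAt_id (τ₀ : ℂ)).sub_const _).mul (h4.const_mul (c : ℂ))
      rw [hψa.unique h3]
      have h4 : (1 * (c * s τ₀) + ((τ₀ : ℂ) - τ₀) * (c * deriv s τ₀)) - (c : ℂ) =
          c * (s τ₀ - 1) := by ring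
      rw [h4, norm_mul, Complex.norm_real, Real.norm_of_nonneg hc0.le]
      have := hs1 τ₀ hτ
      nlinarith
    · -- `2 ψ ψ' = -φ'`
      have hne' : τ - τ₀ ≠ 0 := sub_ne_zero.mpr hne
      have h3 : HasDerivAt (fun z => ψ z ^ 2) (2 * ψ τ * deriv ψ τ) τ := by
        have := hψa.pow 2
        refine this.congr_deriv ?_
        simp only [Nat.cast_ofNat]
        ring
      have h4 : HasDerivAt (fun z => φ τ₀ - φ z) (-deriv φ τ) τ :=
        ((hd.differentiableAt (hBo.mem_nhds hτ)).hasDerivAt).const_sub _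
      have h5 : (fun z => ψ z ^ 2) =ᶠ[𝓝 τ] fun z => φ τ₀ - φ z := by
        filter_upwards [hBo.mem_nhds hτ] with z hz
        exact hψ2 z hz
      have h6 : 2 * ψ τ * deriv ψ τ = -deriv φ τ := (h3.congr_of_eventuallyEq h5.symm).unique h4
      -- norms
      have h7 := hD1 τ hτ
      have hsn := hsne τ hτ
      have hs0 : s τ ≠ 0 := by
        intro h8
        rw [h8] at hsn
        simp at hsn
        linarith
      have hcc : (c : ℂ) ≠ 0 := by exact_mod_cast hc0.ne'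
      have hcc2 : (c : ℂ) ^ 2 = κ / 2 := by
        have : ((c ^ 2 : ℝ) : ℂ) = ((κ / 2 : ℝ) : ℂ) := by rw [hcsq]
        push_cast at this
        exact this
      have h8 : (deriv ψ τ - c) * (2 * c * s τ * (τ - τ₀)) =
          -(deriv φ τ + κ * (τ - τ₀)) - κ * (s τ - 1) * (τ - τ₀) := by
        have h9 : 2 * ψ τ = 2 * c * s τ * (τ - τ₀) := by simp only [hψ]; ring
        have h10 : (deriv ψ τ - c) * (2 * c * s τ * (τ - τ₀)) =
            2 * ψ τ * deriv ψ τ - 2 * c ^ 2 * s τ * (τ - τ₀) := by rw [h9]; ring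
        rw [h10, h6, hcc2]
        ring
      have h9 : ‖deriv ψ τ - c‖ * (2 * c * ‖s τ‖ * ‖τ - τ₀‖) ≤
          κ / 8 * ‖τ - τ₀‖ + κ * (1 / 7) * ‖τ - τ₀‖ := by
        have h10 : ‖(deriv ψ τ - c) * (2 * c * s τ * (τ - τ₀))‖ =
            ‖deriv ψ τ - c‖ * (2 * c * ‖s τ‖ * ‖τ - τ₀‖) := by
          rw [norm_mul, norm_mul, norm_mul, norm_mul, Complex.norm_real,
            Real.norm_of_nonneg hc0.le]
          simp
        rw [← h10, h8]
        refine (norm_sub_le _ _).trans ?_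
        rw [norm_neg, norm_mul, norm_mul, Complex.norm_real, Real.norm_of_nonneg hκ.le]
        have h11 := hs1 τ hτ
        gcongr
      have hpos : 0 < ‖τ - τ₀‖ := norm_pos_iff.mpr hne'
      have h10 : ‖deriv ψ τ - c‖ * (2 * c * ‖s τ‖) ≤ κ / 8 + κ * (1 / 7) := by
        have : ‖deriv ψ τ - c‖ * (2 * c * ‖s τ‖) * ‖τ - τ₀‖ ≤ (κ / 8 + κ * (1 / 7)) * ‖τ - τ₀‖ := by
          nlinarith
        exact le_of_mul_le_mul_right this hpos
      have h11 : ‖deriv ψ τ - c‖ * (2 * c * (6 / 7)) ≤ κ / 8 + κ * (1 / 7) := by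
        refine le_trans ?_ h10
        gcongr
      -- `κ = 2 c^2`
      have hκ2 : κ = 2 * c ^ 2 := by linarith
      rw [hκ2] at h11
      have h12 : ‖deriv ψ τ - c‖ * (12 / 7) * c ≤ (15 / 28 * c) * c := by nlinarith
      have h13 := le_of_mul_le_mul_right h12 hc0
      nlinarith
  -- approximation
  have happ : ∀ x ∈ B, ∀ y ∈ B, ‖ψ x - ψ y - c * (x - y)‖ ≤ c / 2 * ‖x - y‖ := by
    intro x hx y hy
    have := hconv.norm_image_sub_le_of_norm_hasDerivWithin_le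
      (f := fun z => ψ z - c * z) (f' := fun z => deriv ψ z - c)
      (C := c / 2) (x := y) (y := x) (s := B) ?_ hψ' hy hx
    · have h3 : ψ x - ψ y - c * (x - y) = ψ x - c * x - (ψ y - c * y) := by ring
      rw [h3]
      exact this
    · intro z hz
      have h3 : HasDerivAt ψ (deriv ψ z) z := (hψd.differentiableAt (hBo.mem_nhds hz)).hasDerivAt
      have h4 : HasDerivAt (fun z : ℂ => (c : ℂ) * z) c z := by
        simpa using (hasDerivAt_id z).const_mul (c : ℂ)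
      exact (h3.sub h4).hasDerivWithinAt
  have hinj : InjOn ψ B := by
    intro x hx y hy hxy
    have h3 := happ x hx y hy
    rw [hxy, sub_self, zero_sub, norm_neg, norm_mul, Complex.norm_real,
      Real.norm_of_nonneg hc0.le] at h3
    have h4 : ‖x - y‖ ≤ 0 := by nlinarith [norm_nonneg (x - y)]
    exact sub_eq_zero.mp (norm_le_zero_iff.mp h4)
  -- surjectivity
  have hcc : (c : ℂ) ≠ 0 := by exact_mod_cast hc0.ne'
  set Lc : ℂ ≃L[ℂ] ℂ := ContinuousLinearEquiv.smulLeft (Units.mk0 (c : ℂ) hcc) with hLc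
  have hLcapp : ∀ z, (Lc : ℂ →L[ℂ] ℂ) z = c * z := fun z => by
    simp [hLc, Units.smul_def]
  have happL : ApproximatesLinearOn ψ (Lc : ℂ →L[ℂ] ℂ) B (Real.toNNReal (c / 2)) := by
    intro x hx y hy
    rw [hLcapp, Real.coe_toNNReal _ (by positivity)]
    exact happ x hx y hy
  let inv : (Lc : ℂ →L[ℂ] ℂ).NonlinearRightInverse :=
    { toFun := fun z => (c : ℂ)⁻¹ * z
      nnnorm := Real.toNNReal c⁻¹
      bound' := fun z => by
        rw [norm_mul, norm_inv, Complex.norm_real, Real.norm_of_nonneg hc0.le,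
          Real.coe_toNNReal _ (by positivity)]
      right_inv' := fun z => by
        rw [hLcapp, mul_inv_cancel_left₀ hcc] }
  have hsurj := happL.surjOn_closedBall_of_nonlinearRightInverse inv (ε := R / 2)
    (b := (τ₀ : ℂ)) (by linarith) (closedBall_subset_ball (by linarith))
  have hrad : (((inv.nnnorm : ℝ)⁻¹ - (Real.toNNReal (c / 2) : ℝ)) * (R / 2)) =
      c * R / 4 := by
    have : (inv.nnnorm : ℝ) = c⁻¹ := Real.coe_toNNReal _ (by positivity)
    rw [this, inv_inv, Real.coe_toNNReal _ (by positivity)]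
    ring
  rw [hψ0, hrad] at hsurj
  set ρ := c * R / 4 with hρ
  have hρ0 : 0 < ρ := by positivity
  have hex : ∀ σ ∈ ball (0 : ℂ) ρ, ∃ τ ∈ B, ψ τ = σ := by
    intro σ hσ
    obtain ⟨τ, hτ, h3⟩ := hsurj (ball_subset_closedBall hσ)
    exact ⟨τ, (closedBall_subset_ball (by linarith)) hτ, h3⟩
  choose! h hhB hhψ using hex
  -- Lipschitz
  have hlip : ∀ σ ∈ ball (0 : ℂ) ρ, ∀ σ' ∈ ball (0 : ℂ) ρ,
      ‖(σ - σ') - c * (h σ - h σ')‖ ≤ c / 2 * ‖h σ - h σ'‖ := by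
    intro σ hσ σ' hσ'
    have := happ (h σ) (hhB σ hσ) (h σ') (hhB σ' hσ')
    rwa [hhψ σ hσ, hhψ σ' hσ'] at this
  have hlip' : ∀ σ ∈ ball (0 : ℂ) ρ, ∀ σ' ∈ ball (0 : ℂ) ρ,
      ‖h σ - h σ'‖ ≤ 2 / c * ‖σ - σ'‖ := by
    intro σ hσ σ' hσ'
    have h3 := hlip σ hσ σ' hσ'
    have h4 : ‖(c : ℂ) * (h σ - h σ')‖ ≤ ‖σ - σ'‖ + c / 2 * ‖h σ - h σ'‖ := by
      have : (c : ℂ) * (h σ - h σ') = (σ - σ') - ((σ - σ') - c * (h σ - h σ')) := by ring
      calc ‖(c : ℂ) * (h σ - h σ')‖ = ‖(σ - σ') - ((σ - σ') - c * (h σ - h σ'))‖ := by rw [← this]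
        _ ≤ ‖σ - σ'‖ + ‖(σ - σ') - c * (h σ - h σ')‖ := norm_sub_le _ _
        _ ≤ _ := by linarith
    rw [norm_mul, Complex.norm_real, Real.norm_of_nonneg hc0.le] at h4
    have h5 : c / 2 * ‖h σ - h σ'‖ ≤ ‖σ - σ'‖ := by linarith
    rw [div_mul_eq_mul_div, le_div_iff₀ hc0]
    linarith
  have hhcont : ∀ σ ∈ ball (0 : ℂ) ρ, ContinuousAt h σ := by
    intro σ hσ
    rw [Metric.continuousAt_iff]
    intro ε hε
    obtain ⟨δ, hδ, hδB⟩ := Metric.isOpen_iff.mp (isOpen_ball : IsOpen (ball (0 : ℂ) ρ)) σ hσ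
    refine ⟨min δ (ε * c / 4), by positivity, fun {x} hx => ?_⟩
    have hxB : x ∈ ball (0 : ℂ) ρ := hδB (lt_of_lt_of_le hx (min_le_left _ _))
    have h3 := hlip' x hxB σ hσ
    have h4 : ‖x - σ‖ < ε * c / 4 := by
      rw [← dist_eq_norm]; exact lt_of_lt_of_le hx (min_le_right _ _)
    rw [dist_eq_norm]
    calc ‖h x - h σ‖ ≤ 2 / c * ‖x - σ‖ := h3
      _ ≤ 2 / c * (ε * c / 4) := by gcongr
      _ = ε / 2 := by field_simp; ring
      _ < ε := by linarith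
  have hψne : ∀ τ ∈ B, deriv ψ τ ≠ 0 := by
    intro τ hτ h3
    have := hψ' τ hτ
    rw [h3, zero_sub, norm_neg, Complex.norm_real, Real.norm_of_nonneg hc0.le] at this
    linarith
  have hhd : DifferentiableOn ℂ h (ball 0 ρ) := by
    intro σ hσ
    have h3 : HasDerivAt ψ (deriv ψ (h σ)) (h σ) :=
      (hψd.differentiableAt (hBo.mem_nhds (hhB σ hσ))).hasDerivAt
    have h4 : ∀ᶠ y in 𝓝 σ, ψ (h y) = y := by
      filter_upwards [isOpen_ball.mem_nhds hσ] with y hy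
      exact hhψ y hy
    exact (HasDerivAt.of_local_left_inverse (hhcont σ hσ) h3 (hψne _ (hhB σ hσ)) h4
      ).differentiableAt.differentiableWithinAt
  have h0mem : (0 : ℂ) ∈ ball (0 : ℂ) ρ := mem_ball_self hρ0
  have hh0 : h 0 = τ₀ := hinj (hhB 0 h0mem) hτB (by rw [hhψ 0 h0mem, hψ0])
  -- conjugation
  have hBconj : ∀ τ ∈ B, conj τ ∈ B := by
    intro τ hτ
    rw [hB, mem_ball, dist_eq_norm] at hτ ⊢
    have : conj τ - (τ₀ : ℂ) = conj (τ - τ₀) := by simp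
    rw [this, Complex.norm_conj]
    exact hτ
  have hddconj : ∀ τ ∈ B, dd (conj τ) = conj (dd τ) := by
    have hne' : ∀ τ ∈ B, τ ≠ τ₀ → dd (conj τ) = conj (dd τ) := by
      intro τ hτ hne
      have h3 := hfac (conj τ)
      rw [hconj τ hτ, hfac τ] at h3
      have h4 : conj (φ (τ₀ : ℂ)) = φ (τ₀ : ℂ) := by
        have := hconj (τ₀ : ℂ) hτB
        rw [Complex.conj_ofReal] at this
        exact this.symm
      have hne1 : conj τ - (τ₀ : ℂ) ≠ 0 := by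
        intro h5
        apply hne
        have h6 : conj τ = (τ₀ : ℂ) := sub_eq_zero.mp h5
        have := congrArg conj h6
        simpa using this
      simp only [map_add, map_mul, map_pow, map_sub, Complex.conj_ofReal, h4] at h3
      have h5 := add_left_cancel h3
      exact (mul_left_cancel₀ (pow_ne_zero 2 hne1) h5).symm
    intro τ hτ
    rcases eq_or_ne τ (τ₀ : ℂ) with rfl | hne
    · -- by continuity
      have hca : ContinuousAt dd τ₀ := (hddd.differentiableAt hBn).continuousAt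
      have h3 : Tendsto (fun z => dd (conj z)) (𝓝[≠] (τ₀ : ℂ)) (𝓝 (dd (conj (τ₀ : ℂ)))) := by
        have h4 : ContinuousAt (fun z => dd (conj z)) (τ₀ : ℂ) := by
          refine ContinuousAt.comp (f := fun z => conj z) (g := dd) ?_
            Complex.continuous_conj.continuousAt
          rw [Complex.conj_ofReal]
          exact hca
        exact h4.tendsto.mono_left nhdsWithin_le_nhds
      have h4 : Tendsto (fun z => conj (dd z)) (𝓝[≠] (τ₀ : ℂ)) (𝓝 (conj (dd (τ₀ : ℂ)))) :=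
        (Complex.continuous_conj.continuousAt.comp hca).tendsto.mono_left nhdsWithin_le_nhds
      refine tendsto_nhds_unique h3 (h4.congr' ?_)
      filter_upwards [self_mem_nhdsWithin, mem_nhdsWithin_of_mem_nhds hBn] with z hz hzB
      exact (hne' z hzB hz).symm
    · exact hne' τ hτ hne
  have hψconj : ∀ τ ∈ B, ψ (conj τ) = conj (ψ τ) := by
    intro τ hτ
    have h3 : G (conj τ) = conj (G τ) := by
      have h4 : conj ((κ : ℂ) / 2) = (κ : ℂ) / 2 := by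
        rw [map_div₀, Complex.conj_ofReal]
        congr 1
        exact Complex.conj_ofNat 2
      simp only [hG, hddconj τ hτ, map_div₀ _ (-dd τ), map_neg, h4]
    have h4 : s (conj τ) = conj (s τ) := by
      simp only [hs, h3]
      have h5 := Complex.conj_cpow (G τ) (1 / 2 : ℂ) (by
        have := (Complex.mem_slitPlane_iff_arg.mp (hslit τ hτ)).1
        exact this)
      have h6 : conj (1 / 2 : ℂ) = 1 / 2 := by
        rw [map_div₀, map_one]
        congr 1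
        exact Complex.conj_ofNat 2
      rw [h5, h6]
    simp only [hψ, h4, map_mul, map_sub, Complex.conj_ofReal]
  refine ⟨h, hhd, hh0, fun σ hσ => ⟨hhB σ hσ, ?_⟩, ?_, ?_, hlip⟩
  · have := hψ2 (h σ) (hhB σ hσ)
    rw [hhψ σ hσ] at this
    rw [this]; ring
  · intro σ hσ τ hτ hφ
    have h3 : ψ τ ^ 2 = σ ^ 2 := by rw [hψ2 τ hτ, hφ]; ring
    have hσ' : -σ ∈ ball (0 : ℂ) ρ := by simpa using hσ
    rcases sq_eq_sq_iff_eq_or_eq_neg.mp h3 with h4 | h4
    · left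
      exact hinj hτ (hhB σ hσ) (by rw [h4, hhψ σ hσ])
    · right
      exact hinj hτ (hhB _ hσ') (by rw [h4, hhψ _ hσ'])
  · intro σ hσ
    have hσ' : conj σ ∈ ball (0 : ℂ) ρ := by simpa using hσ
    refine hinj (hhB _ hσ') (hBconj _ (hhB σ hσ)) ?_
    rw [hhψ _ hσ', hψconj _ (hhB σ hσ), hhψ σ hσ]

end Pool.Agent.QC.S5
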