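import Pool.Agent.QC.S5.Event
import Pool.Agent.QC.Tame.Iface
import Pool.Agent.QC.Ev.Defs
import Pool.Agent.QC.Ev.RealD
import Pool.Agent.QC.Lab.Paths

/-!
# MP_7c50a9_lc, section 5.1: the function `f_{q+t}` near an event (`eta = 0`)

The function `gq` to which `event_positions` is applied, and its derivatives in terms of the
polynomials `f0 (addT q t)`.
-/

namespace Pool.Agent.QC.S5

open Set Metric Filter Topology Complex ComplexConjugate MvPolynomial
open scoped ContDiff

variable {n l : ℕ}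

/-- The point `(x', τ)` of the argument. -/
def xx (p : Dm n) : Fin (n + 1) → ℂ := Fin.snoc p.2.1 p.1.1

@[simp] theorem xx_last (p : Dm n) : xx p (Fin.last n) = p.1.1 := by simp [xx]

@[simp] theorem xx_castSucc (p : Dm n) (i : Fin n) : xx p i.castSucc = p.2.1 i := by simp [xx]

theorem xx_mk (x : Fin (n + 1) → ℂ) (a t : ℂ) :
    xx (((x (Fin.last n), a), (fun i => x i.castSucc, t)) : Dm n) = x := by
  funext k
  refine Fin.lastCases ?_ (fun i => ?_) k <;> simp

theorem xx_add_smul (p v : Dm n) (s : ℂ) : xx (p + s • v) = xx p + s • xx v := by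
  funext k
  refine Fin.lastCases ?_ (fun i => ?_) k <;> simp

theorem contDiff_xx (k : Fin (n + 1)) : ContDiff ℂ ω (fun p : Dm n => xx p k) := by
  refine Fin.lastCases ?_ (fun i => ?_) k
  · simp only [xx_last]
    exact contDiff_fst.comp contDiff_fst
  · simp only [xx_castSucc]
    exact (contDiff_apply ℂ ℂ i).comp (contDiff_fst.comp contDiff_snd)

theorem contDiff_qval {N : ℕ} (p : QPc N) {x : Dm n → Fin N → ℂ}
    (hx : ∀ k, ContDiff ℂ ω (fun u => x u k)) : ContDiff ℂ ω (fun u => qval p (x u)) := by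
  unfold qval
  refine ContDiff.add (ContDiff.add ?_ ?_) contDiff_const
  · refine ContDiff.sum fun i _ => ContDiff.sum fun j _ => ?_
    exact (contDiff_const.mul (hx i)).mul (hx j)
  · exact ContDiff.sum fun i _ => contDiff_const.mul (hx i)

/-- The function `f_{q+t} (x', τ)`. -/
noncomputable def gq (q : Tup n l) (p : Dm n) : ℂ :=
  (qval (q 0) (xx p) + p.2.2) * ∏ m : Fin l, qval (q m.succ) (xx p) - 1

theorem contDiff_gq (q : Tup n l) : ContDiff ℂ ω (gq q) := by
  unfold gq
  refine ContDiff.sub (ContDiff.mul ?_ ?_) contDiff_const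
  · exact (contDiff_qval _ contDiff_xx).add (contDiff_snd.comp contDiff_snd)
  · exact contDiff_prod fun m _ => contDiff_qval _ contDiff_xx

theorem qval_addT_zero (q : Tup n l) (t : ℂ) (x : Fin (n + 1) → ℂ) :
    qval (addT q t 0) x = qval (q 0) x + t := by
  simp [addT, qval]
  ring

theorem gq_eq (q : Tup n l) (p : Dm n) : gq q p = eval (xx p) (f0 (addT q p.2.2)) := by
  rw [eval_f0, Fin.prod_univ_succ, qval_addT_zero, gq]
  simp only [addT_succ]

/-- Derivative of a function which is polynomial along the directions without `t`. -/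
theorem fderiv_line {φ : Dm n → ℂ} {p : Dm n} (hφ : DifferentiableAt ℂ φ p)
    {P : Pol (n + 1)} (hP : ∀ p' : Dm n, p'.2.2 = p.2.2 → φ p' = eval (xx p') P)
    {v : Dm n} (hv : v.2.2 = 0) :
    fderiv ℂ φ p v = ∑ k, eval (xx p) (pderiv k P) * xx v k := by
  have h1 : HasDerivAt (fun s : ℂ => φ (p + s • v)) (fderiv ℂ φ p v) 0 := by
    have hl : HasDerivAt (fun s : ℂ => p + s • v) v 0 := by
      simpa using ((hasDerivAt_id (0 : ℂ)).smul_const v).const_add p
    have hφ' : HasFDerivAt φ (fderiv ℂ φ p) (p + (0 : ℂ) • v) := by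
      simpa using hφ.hasFDerivAt
    exact hφ'.comp_hasDerivAt (0 : ℂ) hl
  have h2 : HasDerivAt (fun s : ℂ => eval (xx p + s • xx v) P)
      ((linF fun k => eval (xx p) (pderiv k P)) (xx v)) 0 := by
    have hl : HasDerivAt (fun s : ℂ => xx p + s • xx v) (xx v) 0 := by
      simpa using ((hasDerivAt_id (0 : ℂ)).smul_const (xx v)).const_add (xx p)
    have hφ' : HasFDerivAt (fun x : Fin (n + 1) → ℂ => eval x P)
        (linF fun k => eval (xx p) (pderiv k P)) (xx p + (0 : ℂ) • xx v) := by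
      simpa using hasFDerivAt_evalPol P (xx p)
    exact hφ'.comp_hasDerivAt (0 : ℂ) hl
  have h3 : (fun s : ℂ => φ (p + s • v)) = fun s : ℂ => eval (xx p + s • xx v) P := by
    funext s
    rw [hP (p + s • v) (by simp [hv]), xx_add_smul]
  rw [h3] at h1
  rw [h1.unique h2, linF_apply]

theorem differentiable_gq (q : Tup n l) : Differentiable ℂ (gq q) :=
  (contDiff_gq q).differentiable (by simp)

/-- First derivatives without `t`. -/
theorem fderiv_gq (q : Tup n l) (p : Dm n) {v : Dm n} (hv : v.2.2 = 0) :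
    fderiv ℂ (gq q) p v =
      ∑ k, eval (xx p) (pderiv k (f0 (addT q p.2.2))) * xx v k := by
  refine fderiv_line (differentiable_gq q p) (fun p' hp' => ?_) hv
  rw [gq_eq, hp']

theorem grd_gq (q : Tup n l) (p : Dm n) (j : Fin n) :
    grd (gq q) p j = eval (xx p) (pderiv j.castSucc (f0 (addT q p.2.2))) := by
  rw [grd, fderiv_gq q p (by simp [dX]), Fin.sum_univ_castSucc]
  have h1 : ∀ i : Fin n, xx (dX (n := n) j) i.castSucc = if i = j then 1 else 0 := by
    intro i
    simp [dX, Pi.single_apply]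
  simp only [h1]
  simp [dX]

theorem dτ_gq (q : Tup n l) (p : Dm n) :
    fderiv ℂ (gq q) p dτ = eval (xx p) (pderiv (Fin.last n) (f0 (addT q p.2.2))) := by
  rw [fderiv_gq q p (by simp [dτ]), Fin.sum_univ_castSucc]
  simp [dτ]

theorem dT_gq (q : Tup n l) (p : Dm n) :
    fderiv ℂ (gq q) p dT = ∏ m : Fin l, qval (q m.succ) (xx p) := by
  have h1 : HasDerivAt (fun s : ℂ => gq q (p + s • dT)) (fderiv ℂ (gq q) p dT) 0 := by
    have hl : HasDerivAt (fun s : ℂ => p + s • (dT : Dm n)) dT 0 := by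
      simpa using ((hasDerivAt_id (0 : ℂ)).smul_const (dT : Dm n)).const_add p
    have hφ' : HasFDerivAt (gq q) (fderiv ℂ (gq q) p) (p + (0 : ℂ) • dT) := by
      simpa using (differentiable_gq q p).hasFDerivAt
    exact hφ'.comp_hasDerivAt (0 : ℂ) hl
  have h2 : (fun s : ℂ => gq q (p + s • dT)) = fun s : ℂ =>
      (qval (q 0) (xx p) + (p.2.2 + s)) * (∏ m : Fin l, qval (q m.succ) (xx p)) - 1 := by
    funext s
    have h3 : xx (p + s • (dT : Dm n)) = xx p := by
      rw [xx_add_smul]
      have : xx (dT : Dm n) = 0 := by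
        funext k
        refine Fin.lastCases ?_ (fun i => ?_) k <;> simp [dT]
      rw [this, smul_zero, add_zero]
    rw [gq, h3]
    simp [dT]
  rw [h2] at h1
  have h4 : HasDerivAt (fun s : ℂ =>
      (qval (q 0) (xx p) + (p.2.2 + s)) * (∏ m : Fin l, qval (q m.succ) (xx p)) - 1)
      (∏ m : Fin l, qval (q m.succ) (xx p)) 0 := by
    have := ((((hasDerivAt_id (0 : ℂ)).const_add p.2.2).const_add (qval (q 0) (xx p))).mul_const
      (∏ m : Fin l, qval (q m.succ) (xx p))).sub_const 1
    simpa using this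
  exact h1.unique h4

/-- Second derivatives. -/
theorem fderiv_grd_gq (q : Tup n l) (p : Dm n) {v : Dm n} (hv : v.2.2 = 0) (j : Fin n) :
    fderiv ℂ (grd (gq q)) p v j =
      ∑ k, eval (xx p) (pderiv k (pderiv j.castSucc (f0 (addT q p.2.2)))) * xx v k := by
  have hd : Differentiable ℂ (grd (gq q)) := (contDiff_grd (contDiff_gq q)).differentiable (by simp)
  have h1 : fderiv ℂ (grd (gq q)) p v j = fderiv ℂ (fun p => grd (gq q) p j) p v := by
    have := (hasFDerivAt_pi'.mp (hd p).hasFDerivAt j).fderiv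
    rw [this]
    rfl
  rw [h1]
  refine fderiv_line ((differentiableAt_pi.mp (hd p)) j) (fun p' hp' => ?_) hv
  rw [grd_gq, hp']

theorem fderiv_dτ_gq (q : Tup n l) (p : Dm n) {v : Dm n} (hv : v.2.2 = 0) :
    fderiv ℂ (fun p => fderiv ℂ (gq q) p dτ) p v =
      ∑ k, eval (xx p) (pderiv k (pderiv (Fin.last n) (f0 (addT q p.2.2)))) * xx v k := by
  have hd : Differentiable ℂ (fun p => fderiv ℂ (gq q) p dτ) :=
    (contDiff_fderiv_dir (contDiff_gq q) dτ).differentiable (by simp)
  refine fderiv_line (hd p) (fun p' hp' => ?_) hv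
  rw [dτ_gq, hp']

/-- Membership in `CritF` in terms of `gq`. -/
theorem mem_CritF_gq (q : Tup n l) (p : Dm n) :
    xx p ∈ CritF (f0 (addT q p.2.2)) ↔ gq q p = 0 ∧ grd (gq q) p = 0 := by
  rw [gq_eq]
  refine and_congr Iff.rfl ⟨fun h => funext fun j => ?_, fun h j => ?_⟩
  · rw [grd_gq]; exact h j
  · rw [← grd_gq, h]; rfl

theorem hess'_gq (q : Tup n l) (p : Dm n)
    (h : ∀ e : Fin n → ℂ, fderiv ℂ (grd (gq q)) p (0, (e, 0)) = 0 → e = 0) :
    (hess' (f0 (addT q p.2.2)) (xx p)).det ≠ 0 := by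
  intro h0
  obtain ⟨e, he, hv⟩ := Matrix.exists_vecMul_eq_zero_iff.mpr h0
  apply he
  apply h
  funext j
  rw [fderiv_grd_gq q p (by simp), Fin.sum_univ_castSucc]
  have h1 := congrFun hv j
  simp only [Matrix.vecMul, dotProduct, hess', Pi.zero_apply] at h1
  simp only [xx_castSucc, xx_last, Prod.fst_zero, mul_zero, add_zero, Pi.zero_apply]
  rw [← h1]
  exact Finset.sum_congr rfl fun k _ => mul_comm _ _

theorem hess'_gq_inj (q : Tup n l) (p : Dm n)
    (h : (hess' (f0 (addT q p.2.2)) (xx p)).det ≠ 0) (e : Fin n → ℂ)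
    (he : fderiv ℂ (grd (gq q)) p (0, (e, 0)) = 0) : e = 0 := by
  refine Matrix.eq_zero_of_vecMul_eq_zero h ?_
  funext j
  have h1 := congrFun he j
  rw [fderiv_grd_gq q p (by simp), Fin.sum_univ_castSucc] at h1
  simp only [xx_castSucc, xx_last, Prod.fst_zero, mul_zero, add_zero, Pi.zero_apply] at h1
  simp only [Matrix.vecMul, dotProduct, hess', Pi.zero_apply]
  rw [← h1]
  exact Finset.sum_congr rfl fun k _ => mul_comm _ _

end Pool.Agent.QC.S5
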