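import Pool.Agent.QC.S5.PairG

/-!
# MP_7c50a9_lc, section 5.1: the critical points of `x_n` near an event (`eta = 0`)

`exists_local`: near the singular point `v` of the level `tv` the critical points of the level `t`
are `W σ`, `σ ^ 2 = ε (tv - t)`.
-/

namespace Pool.Agent.QC.S5

open Set Metric Filter Topology Complex ComplexConjugate MvPolynomial
open scoped ContDiff

variable {n l : ℕ}

/-- The base point. -/
def uv (v : Fin (n + 1) → ℝ) (tv : ℝ) : Dm n :=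
  (((v (Fin.last n) : ℂ), 0), (fun i => (v i.castSucc : ℂ), (tv : ℂ)))

theorem xx_uv (v : Fin (n + 1) → ℝ) (tv : ℝ) : xx (uv v tv) = xC v := by
  funext k
  refine Fin.lastCases ?_ (fun i => ?_) k <;> simp [uv, xC]

theorem cj_uv (v : Fin (n + 1) → ℝ) (tv : ℝ) : cj (uv v tv) = uv v tv := by
  simp [cj, uv]

theorem conj_qval_tC (q : RTup n l) (m : Fin (l + 1)) (x : Fin (n + 1) → ℂ) :
    qval (tC q m) (fun k => conj (x k)) = conj (qval (tC q m) x) := by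
  simp [qval, tC, map_sum]

theorem gq_cj (q : RTup n l) (p : Dm n) : gq (tC q) (cj p) = conj (gq (tC q) p) := by
  have h1 : xx (cj p) = fun k => conj (xx p k) := by
    funext k
    refine Fin.lastCases ?_ (fun i => ?_) k <;> simp [cj]
  rw [gq, gq, h1]
  simp only [conj_qval_tC, map_sub, map_mul, map_add, map_prod, map_one]
  rfl

/-- Nondegeneracy of the event. -/
theorem ndEvent_gq {q : Tup n l} {p : Dm n} (hs : xx p ∈ SingF (f0 (addT q p.2.2)))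
    (hh : (hess' (f0 (addT q p.2.2)) (xx p)).det ≠ 0) : NDEvent (gq q) p where
  g0 := by rw [gq_eq]; exact hs.1
  grd0 := by
    funext j
    rw [grd_gq]
    exact hs.2 _
  dτ0 := by rw [dτ_gq]; exact hs.2 _
  dTne := by
    rw [dT_gq]
    intro h0
    have h1 : gq q p = 0 := by rw [gq_eq]; exact hs.1
    rw [gq, h0, mul_zero, zero_sub, neg_eq_zero] at h1
    exact one_ne_zero h1
  hess := fun e he => hess'_gq_inj q p hh e he

/-- **Critical points near the event.** -/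
theorem exists_local (q : RTup n l) {tv : ℝ} {v : Fin (n + 1) → ℝ}
    (hs : xC v ∈ SingF (f0 (addT (tC q) (tv : ℂ))))
    (hh : (hess' (f0 (addT (tC q) (tv : ℂ))) (xC v)).det ≠ 0) {κ ε : ℝ} (hε : ε = 1 ∨ ε = -1)
    (hκ : 0 < κ) (hkap : IsKap (gq (tC q)) (uv v tv) ((ε : ℂ) * κ)) :
    ∃ U : Set (Fin (n + 1) → ℂ), IsOpen U ∧ xC v ∈ U ∧ ∃ ρ > 0, ∃ s : ℝ, 0 < s ∧
      ∃ W : ℂ → Fin (n + 1) → ℂ, ContinuousAt W 0 ∧ W 0 = xC v ∧
      (∀ t : ℂ, ‖t - tv‖ < ρ → ∀ x, (x ∈ U ∧ x ∈ CritF (f0 (addT (tC q) t))) ↔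
        ∃ σ : ℂ, σ ^ 2 = ε * (tv - t) ∧ x = W σ) ∧
      (∀ t : ℂ, ‖t - tv‖ < ρ → t ≠ tv → ∀ x ∈ U, x ∈ CritF (f0 (addT (tC q) t)) →
        NonDegC (f0 (addT (tC q) t)) x) ∧
      (∀ σ : ℂ, ‖σ‖ ^ 2 < ρ → W (conj σ) = fun k => conj (W σ k)) ∧
      ∀ σ σ' : ℂ, ‖σ‖ ^ 2 < ρ → ‖σ'‖ ^ 2 < ρ →
        ‖(σ - σ') - (s : ℂ) * (W σ (Fin.last n) - W σ' (Fin.last n))‖ ≤
          s / 2 * ‖W σ (Fin.last n) - W σ' (Fin.last n)‖ := by
  set g := gq (tC q) with hg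
  set u := uv v tv with hu
  have hu2 : u.2.2 = (tv : ℂ) := rfl
  have hxu : xx u = xC v := xx_uv v tv
  have hnd : NDEvent g u := ndEvent_gq (by rw [hu2, hxu]; exact hs) (by rw [hu2, hxu]; exact hh)
  obtain ⟨N, hN, hNo, -, R, hR, hpos⟩ := event_positions (contDiff_gq (tC q)) (gq_cj q) (cj_uv v tv)
    (v := v (Fin.last n)) (t₀ := tv) rfl rfl hnd hε hκ hkap (V := univ) univ_mem
  obtain ⟨ρ, hρ, hpos⟩ := hpos R ⟨hR, le_rfl⟩
  obtain ⟨η₀, hη₀, hpos⟩ := hpos ρ ⟨hρ, le_rfl⟩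
  obtain ⟨τη, tη, h, X, -, -, h0, hd, hball, hXN, hXc, hiff, hsing, hhess, hXconj, hhconj, hpar⟩ :=
    hpos 0 (by simpa using hη₀)
  have hvR : (v (Fin.last n) : ℂ) ∈ ball (v (Fin.last n) : ℂ) R := mem_ball_self hR
  have htR : (tv : ℂ) ∈ ball (tv : ℂ) ρ := mem_ball_self hρ
  have hvN : u.2.1 ∈ N := mem_of_mem_nhds hN
  -- the event itself
  obtain ⟨hX0, hτ0, ht0⟩ := (hsing tv htR u.2.1 hvN (v (Fin.last n)) hvR).mp
    ⟨hnd.g0, hnd.grd0, hnd.dτ0⟩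
  have hh0 : h 0 = (v (Fin.last n) : ℂ) := by rw [h0, hτ0]
  -- the open set
  let U : Set (Fin (n + 1) → ℂ) :=
    {x | (fun i : Fin n => x i.castSucc) ∈ N ∧ x (Fin.last n) ∈ ball (v (Fin.last n) : ℂ) R}
  have hUo : IsOpen U := by
    refine (hNo.preimage (f := fun x : Fin (n + 1) → ℂ => fun i : Fin n => x i.castSucc)
      (by fun_prop)).inter (isOpen_ball.preimage (f := fun x : Fin (n + 1) → ℂ => x (Fin.last n))
        (by fun_prop))
  let W : ℂ → Fin (n + 1) → ℂ := fun σ => Fin.snoc (X (h σ)) (h σ)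
  have hWl : ∀ σ, W σ (Fin.last n) = h σ := fun σ => by simp [W]
  have hWc : ∀ σ (i : Fin n), W σ i.castSucc = X (h σ) i := fun σ i => by simp [W]
  have hW0 : W 0 = xC v := by
    funext k
    refine Fin.lastCases ?_ (fun i => ?_) k
    · rw [hWl, hh0]; rfl
    · rw [hWc, h0, ← hX0]; rfl
  have h0ρ : ‖(0 : ℂ)‖ ^ 2 < 2 * ρ := by simpa using by linarith
  have hset : {σ : ℂ | ‖σ‖ ^ 2 < 2 * ρ} ∈ 𝓝 (0 : ℂ) := by
    refine IsOpen.mem_nhds ?_ h0ρ
    exact isOpen_lt (by fun_prop) continuous_const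
  have hhc : ContinuousAt h 0 := (hd.differentiableAt hset).continuousAt
  have hXc0 : ContinuousAt X (h 0) := by
    refine hXc.continuousAt (isOpen_ball.mem_nhds ?_)
    rw [hh0]
    exact hvR
  have hWcont : ContinuousAt W 0 := by
    rw [continuousAt_pi]
    intro k
    refine Fin.lastCases ?_ (fun i => ?_) k
    · simp only [hWl]
      exact hhc
    · simp only [hWc]
      exact (continuousAt_pi.mp (ContinuousAt.comp (f := h) (g := X) hXc0 hhc)) i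
  have hgx : ∀ (x : Fin (n + 1) → ℂ) (t : ℂ), x ∈ CritF (f0 (addT (tC q) t)) ↔
      (g (((x (Fin.last n), ((0 : ℝ) : ℂ)), (fun i => x i.castSucc, t))) = 0 ∧
        grd g (((x (Fin.last n), ((0 : ℝ) : ℂ)), (fun i => x i.castSucc, t))) = 0) := by
    intro x t
    have := mem_CritF_gq (tC q) (((x (Fin.last n), ((0 : ℝ) : ℂ)), (fun i => x i.castSucc, t)))
    rwa [xx_mk] at this
  have hiff' : ∀ t : ℂ, ‖t - tv‖ < ρ → ∀ x, (x ∈ U ∧ x ∈ CritF (f0 (addT (tC q) t))) ↔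
        ∃ σ : ℂ, σ ^ 2 = ε * (tv - t) ∧ x = W σ := by
    intro t ht x
    have htb : t ∈ ball (tv : ℂ) ρ := by rwa [mem_ball, dist_eq_norm]
    constructor
    · rintro ⟨⟨hx1, hx2⟩, hx⟩
      obtain ⟨hX, σ, hσ, hτ⟩ := (hiff t htb _ hx1 _ hx2).mp ((hgx x t).mp hx)
      refine ⟨σ, by rw [hσ, ← ht0], ?_⟩
      funext k
      refine Fin.lastCases ?_ (fun i => ?_) k
      · rw [hWl, hτ]
      · rw [hWc, ← hτ, ← hX]
    · rintro ⟨σ, hσ, rfl⟩
      have hnσ : ‖σ‖ ^ 2 < 2 * ρ := by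
        have h1 : ‖σ‖ ^ 2 = ‖t - tv‖ := by
          rw [← norm_pow, hσ, norm_mul, norm_sub_rev]
          rcases hε with rfl | rfl <;> simp
        rw [h1]
        linarith
      have hb : h σ ∈ ball (v (Fin.last n) : ℂ) R :=
        ball_subset_ball (by linarith) (hball σ hnσ)
      have hx1 : (fun i : Fin n => W σ i.castSucc) ∈ N := by
        simp only [hWc]
        exact hXN _ hb
      have hx2 : W σ (Fin.last n) ∈ ball (v (Fin.last n) : ℂ) R := by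
        rw [hWl]; exact hb
      refine ⟨⟨hx1, hx2⟩, (hgx _ t).mpr ((hiff t htb _ hx1 _ hx2).mpr ⟨?_, σ, ?_, ?_⟩)⟩
      · funext i
        rw [hWc, hWl]
      · rw [hσ, ← ht0]
      · rw [hWl]
  refine ⟨U, hUo, ⟨hvN, hvR⟩, ρ, hρ, Real.sqrt (κ / 2), Real.sqrt_pos.mpr (by linarith), W, hWcont,
    hW0, hiff', ?_, ?_, ?_⟩
  · intro t ht htne x hxU hx
    have htb : t ∈ ball (tv : ℂ) ρ := by rwa [mem_ball, dist_eq_norm]
    obtain ⟨hx1, hx2⟩ := hxU
    refine ⟨?_, fun hl => ?_⟩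
    · have := hess'_gq (tC q) (((x (Fin.last n), ((0 : ℝ) : ℂ)), (fun i => x i.castSucc, t)))
        (hhess t htb _ hx1 _ hx2)
      rwa [xx_mk] at this
    · obtain ⟨h1, h2⟩ := (hgx x t).mp hx
      have h3 := (hsing t htb _ hx1 _ hx2).mp ⟨h1, h2, by
        rw [dτ_gq, xx_mk]
        exact hl⟩
      exact htne (by rw [h3.2.2, ← ht0])
  · intro σ hσ
    have hσ2 : ‖σ‖ ^ 2 < 2 * ρ := by linarith
    have hb : h σ ∈ ball (v (Fin.last n) : ℂ) R :=
      ball_subset_ball (by linarith) (hball σ hσ2)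
    funext k
    refine Fin.lastCases ?_ (fun i => ?_) k
    · rw [hWl, hWl, hhconj σ hσ2]
    · rw [hWc, hWc, hhconj σ hσ2, hXconj _ hb]
  · intro σ σ' hσ hσ'
    rw [hWl, hWl]
    exact hpar σ σ' (by linarith) (by linarith)

end Pool.Agent.QC.S5
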